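import Pool.Agent.Helper70.TG.V2
import Pool.Agent.Helper97.TF6.Lag

/-!
BLOCK DP-D1 (about 250 lines). Hadamard: the ratio of two dimensions.

Proof in words.
* `hadamard`: `|det M| ≤ ∏_j (∑_i M i j²)^(1/2)` for a real matrix: `Orientation.abs_volumeForm_apply_le` for the standard orthonormal basis of `EuclideanSpace ℝ (Fin N)` (`Orientation.volumeForm_robust`, `OrthonormalBasis.toBasis`, `Basis.det`), or Gram-Schmidt. If Mathlib has it in another form use that.
* `det_ratio`: for injective `x y : Fin N → ℕ`: `Bm b y = Bm b x * R`, `R j k = rt b X (x j) (y k)`, `X = univ.image x` (`lag`). The column `k` of `R` is a unit vector if `y k ∈ X` (`rt_range`), and `∑_j rt b X (x j) (y k)² ≤ RR b X` otherwise (one term of each series, `rt_summable`). So by `hadamard`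
  `|det (Bm b y)| ≤ (√(RR b X))^r |det (Bm b x)|`, `r` the number of `k` with `y k ∉ X`.
* `det_Bm`: `det (Bm b x) = (∏_j b^(x j) / (x j)!) * b^(-N(N-1)/2) * ∏_{i<j} (x j - x i)`: `gB b i x = (b^x / x!) * p_i(x)` with the polynomial `p_i(x) = ∑_{z ≤ i} (-b)^(i-z)/(i-z)! * b^(-z) * x(x-1)…(x-z+1)` of degree `i` with the leading coefficient `b^(-i)` (`Matrix.det_eval_matrixOfPolynomials_eq_det_vandermonde` or the way it is used in the file `Lag`).
* `ff_ratio`: by `ff_eq_prod`, `ff n κ = n! ∏_{i<j} (bd κ i - bd κ j) / ∏ (bd κ i)!`, so `ff n μ / ff n κ = |det Bm (bd μ)| / |det Bm (bd κ)| * b^(∑ bd κ - ∑ bd μ)` and the two sums are equal (`= n + N(N-1)/2`).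
-/

set_option autoImplicit false

open Finset Pool.Agent.Helper51.TF Pool.Agent.Helper97.TF6

namespace Pool.Agent.Helper67.DP

variable {N : ℕ}

theorem hadamard (M : Matrix (Fin N) (Fin N) ℝ) : |M.det| ≤ ∏ j, Real.sqrt (∑ i, M i j ^ 2) := by
  set b := EuclideanSpace.basisFun (Fin N) ℝ with hb
  have hfin : Fact (Module.finrank ℝ (EuclideanSpace ℝ (Fin N)) = N) := ⟨by simp⟩
  set v : Fin N → EuclideanSpace ℝ (Fin N) := fun j => WithLp.toLp 2 (fun i => M i j) with hv
  have h1 := b.toBasis.orientation.abs_volumeForm_apply_le v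
  rw [b.toBasis.orientation.volumeForm_robust b rfl, Module.Basis.det_apply] at h1
  have h2 : b.toBasis.toMatrix v = M := by
    ext i j
    rw [Module.Basis.toMatrix_apply]
    simp [hb, hv]
  rw [h2] at h1
  refine h1.trans (le_of_eq (Finset.prod_congr rfl fun j _ => ?_))
  rw [EuclideanSpace.norm_eq]
  congr 1
  refine Finset.sum_congr rfl fun i _ => ?_
  change ‖M i j‖ ^ 2 = _
  rw [Real.norm_eq_abs, sq_abs]

theorem det_ratio {b : ℝ} (hb : 0 < b) {x y : Fin N → ℕ} (hx : Function.Injective x) :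
    |(Bm b y).det| ≤ Real.sqrt (RR b (univ.image x)) ^ (univ.filter (fun k => y k ∉ univ.image x)).card *
      |(Bm b x).det| := by
  classical
  set R : Matrix (Fin N) (Fin N) ℝ := Matrix.of fun j k => rt b (univ.image x) (x j) (y k) with hR
  have h1 : Bm b y = Bm b x * R := by
    ext i k
    rw [Matrix.mul_apply]
    change gB b i (y k) = _
    rw [lag hb hx i i.2 (y k)]
    refine Finset.sum_congr rfl fun j _ => ?_
    rw [mul_comm]
    rfl
  have h2 : |R.det| ≤ Real.sqrt (RR b (univ.image x)) ^ (univ.filter (fun k => y k ∉ univ.image x)).card := by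
    refine (hadamard R).trans ?_
    have h3 : ∏ k, Real.sqrt (∑ j, R j k ^ 2) ≤ ∏ k : Fin N, (if y k ∉ univ.image x then Real.sqrt (RR b (univ.image x)) else 1) := by
      refine Finset.prod_le_prod (fun k _ => Real.sqrt_nonneg _) fun k _ => ?_
      by_cases h : y k ∉ univ.image x
      · rw [if_pos h]
        refine Real.sqrt_le_sqrt ?_
        unfold RR
        rw [Finset.sum_image (fun i _ j _ h => hx h)]
        refine Finset.sum_le_sum fun j _ => ?_
        have hs : Summable fun v : ℕ => if v ∈ univ.image x then (0 : ℝ) else rt b (univ.image x) (x j) v ^ 2 := by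
          have h4 := rt_summable hb (univ.image x) (x j) 0
          simp only [zero_mul, Real.exp_zero, mul_one] at h4
          refine Summable.of_nonneg_of_le (fun v => ?_) (fun v => ?_) h4
          · split_ifs
            · exact le_rfl
            · positivity
          · split_ifs
            · positivity
            · exact le_rfl
        have h5 := hs.le_tsum (y k) fun v _ => by
          split_ifs
          · exact le_rfl
          · positivity
        rw [if_neg h] at h5
        exact h5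
      · rw [if_neg h]
        obtain ⟨m, -, hm⟩ := Finset.mem_image.1 (not_not.1 h)
        have h6 : ∑ j, R j k ^ 2 = 1 := by
          have h7 : ∀ j, R j k = if m = j then 1 else 0 := fun j => by
            change rt b (univ.image x) (x j) (y k) = _
            rw [← hm, rt_range hb hx]
          rw [Finset.sum_eq_single m]
          · rw [h7, if_pos rfl, one_pow]
          · intro j _ hj
            rw [h7, if_neg (Ne.symm hj)]
            norm_num
          · intro h8
            exact absurd (Finset.mem_univ m) h8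
        rw [h6, Real.sqrt_one]
    refine h3.trans (le_of_eq ?_)
    rw [Finset.prod_ite, Finset.prod_const, Finset.prod_const_one, mul_one]
  rw [h1, Matrix.det_mul, abs_mul, mul_comm]
  exact mul_le_mul_of_nonneg_right h2 (abs_nonneg _)

theorem det_Bm {b : ℝ} (hb : 0 < b) (x : Fin N → ℕ) :
    |(Bm b x).det| = (∏ j, b ^ (x j) / ((x j).factorial : ℝ)) * (b ^ (N * (N - 1) / 2))⁻¹ *
      ∏ i : Fin N, ∏ j ∈ Finset.Ioi i, |(x j : ℝ) - x i| := by
  choose p hp hpc hpe using fun i : ℕ => gB_poly hb.ne' i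
  set q : Fin N → Polynomial ℝ := fun i => Polynomial.C (b ^ (i : ℕ)) * p i with hq
  have hbi : ∀ i : ℕ, b ^ i ≠ 0 := fun i => (pow_pos hb i).ne'
  have hqd : ∀ i, (q i).natDegree = i := fun i => by
    rw [hq]
    change (Polynomial.C (b ^ (i : ℕ)) * p i).natDegree = _
    rw [Polynomial.natDegree_C_mul (hbi _), hp]
  have hqm : ∀ i, (q i).Monic := fun i => by
    unfold Polynomial.Monic Polynomial.leadingCoeff
    rw [hqd]
    change (Polynomial.C (b ^ (i : ℕ)) * p i).coeff i = 1
    rw [Polynomial.coeff_C_mul, hpc, ← mul_pow, mul_inv_cancel₀ hb.ne', one_pow]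
  have h1 := Matrix.det_eval_matrixOfPolynomials_eq_det_vandermonde (fun j : Fin N => (x j : ℝ)) q hqd hqm
  rw [Matrix.det_vandermonde] at h1
  have h2 : Bm b x = Matrix.of fun (i j : Fin N) => (b ^ (x j) / ((x j).factorial : ℝ)) *
      (Matrix.of fun (i j : Fin N) => (b ^ (i : ℕ))⁻¹ * (Matrix.of fun (i j : Fin N) => (q i).eval (x j : ℝ)) i j) i j := by
    ext i j
    change gB b i (x j) = (b ^ (x j) / ((x j).factorial : ℝ)) * ((b ^ (i : ℕ))⁻¹ * (Polynomial.C (b ^ (i : ℕ)) * p i).eval (x j : ℝ))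
    rw [hpe, Polynomial.eval_mul, Polynomial.eval_C, inv_mul_cancel_left₀ (hbi _)]
  have h3 : (Matrix.of fun (i j : Fin N) => (q i).eval (x j : ℝ)).det = ∏ i : Fin N, ∏ j ∈ Finset.Ioi i, ((x j : ℝ) - x i) := by
    rw [h1, ← Matrix.det_transpose]
    rfl
  rw [h2, Matrix.det_mul_row, Matrix.det_mul_column, h3, abs_mul, abs_mul, Finset.abs_prod, Finset.abs_prod, Finset.abs_prod]
  have h4 : ∏ i : Fin N, |(b ^ (i : ℕ))⁻¹| = (b ^ (N * (N - 1) / 2))⁻¹ := by
    have h5 : ∀ i : Fin N, |(b ^ (i : ℕ))⁻¹| = (b ^ (i : ℕ))⁻¹ := fun i => abs_of_pos (inv_pos.2 (pow_pos hb _))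
    rw [Finset.prod_congr rfl fun i _ => h5 i, Finset.prod_inv_distrib, Finset.prod_pow_eq_pow_sum,
      Fin.sum_univ_eq_sum_range (fun i => i) N, Finset.sum_range_id]
  have h6 : ∏ j, |b ^ (x j) / ((x j).factorial : ℝ)| = ∏ j, b ^ (x j) / ((x j).factorial : ℝ) :=
    Finset.prod_congr rfl fun j _ => abs_of_nonneg (by positivity)
  rw [h4, h6, mul_assoc]
  congr 2
  refine Finset.prod_congr rfl fun i _ => ?_
  rw [Finset.abs_prod]

private theorem bd_lt56 {κ : Fin N → ℕ} (h : Antitone κ) {i j : Fin N} (hij : i < j) : bd κ j < bd κ i := by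
  have h1 := h hij.le
  have h2 := j.2
  unfold bd
  rw [Fin.lt_def] at hij
  omega

private theorem bd_inj56 {κ : Fin N → ℕ} (h : Antitone κ) : Function.Injective (bd κ) := by
  intro i j hij
  rcases lt_trichotomy i j with h1 | h1 | h1
  · exact absurd hij (bd_lt56 h h1).ne'
  · exact h1
  · exact absurd hij (bd_lt56 h h1).ne

private theorem det_ff56 {b : ℝ} (hb : 0 < b) {n : ℕ} (hN : n ≤ N) {κ : Fin N → ℕ} (hκ : κ ∈ PP N n) :
    |(Bm b (bd κ)).det| = b ^ (n + N * (N - 1) / 2) * (b ^ (N * (N - 1) / 2))⁻¹ / (n.factorial : ℝ) *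
      Pool.Agent.Helper70.TG.ff n κ := by
  have hanti := (mem_PP.1 hκ).1
  have hsum : ∑ i, bd κ i = n + N * (N - 1) / 2 := by
    have h1 : ∑ i : Fin N, (N - 1 - (i : ℕ)) = N * (N - 1) / 2 := by
      rw [Fin.sum_univ_eq_sum_range (fun i => N - 1 - i) N, Finset.sum_range_reflect (fun i => i) N, Finset.sum_range_id]
    unfold bd
    rw [Finset.sum_add_distrib, h1, (mem_PP.1 hκ).2]
  have hff := Pool.Agent.Helper70.TG.ff_eq_prod hN hκ
  have hbd : ∀ i, Pool.Agent.Helper70.TG.bd κ i = bd κ i := fun i => rfl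
  simp only [hbd] at hff
  rw [det_Bm hb, hff, Finset.prod_div_distrib, Finset.prod_pow_eq_pow_sum, hsum]
  have h2 : ∏ i : Fin N, ∏ j ∈ Finset.Ioi i, |(bd κ j : ℝ) - bd κ i| = ∏ i : Fin N, ∏ j ∈ Finset.Ioi i, ((bd κ i : ℝ) - bd κ j) := by
    refine Finset.prod_congr rfl fun i _ => Finset.prod_congr rfl fun j hj => ?_
    have h3 : ((bd κ j : ℕ) : ℝ) < bd κ i := by exact_mod_cast bd_lt56 hanti (Finset.mem_Ioi.1 hj)
    rw [abs_sub_comm, abs_of_pos (by linarith)]
  rw [h2]
  have h4 : ((n.factorial : ℕ) : ℝ) ≠ 0 := by positivity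
  field_simp

theorem ff_ratio {b : ℝ} (hb : 0 < b) {n : ℕ} (hN : n ≤ N) {κ μ : Fin N → ℕ} (hκ : κ ∈ PP N n) (hμ : μ ∈ PP N n) :
    Pool.Agent.Helper70.TG.ff n μ ≤ Real.sqrt (RR b (bs κ)) ^ (univ.filter (fun k => bd μ k ∉ bs κ)).card *
      Pool.Agent.Helper70.TG.ff n κ := by
  have h1 := det_ratio (y := bd μ) hb (bd_inj56 (mem_PP.1 hκ).1)
  rw [det_ff56 hb hN hκ, det_ff56 hb hN hμ] at h1
  set K : ℝ := b ^ (n + N * (N - 1) / 2) * (b ^ (N * (N - 1) / 2))⁻¹ / (n.factorial : ℝ) with hK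
  have hK0 : 0 < K := by positivity
  refine le_of_mul_le_mul_left ?_ hK0
  refine h1.trans (le_of_eq ?_)
  change Real.sqrt (RR b (bs κ)) ^ (univ.filter (fun k => bd μ k ∉ bs κ)).card * (K * _) = _
  ring

end Pool.Agent.Helper67.DP
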