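import Pool.Agent.Helper67.DP.R2
import Pool.Agent.Helper67.DP.D1
import Pool.Agent.Helper1.DL.Final
import Pool.Agent.Helper51.TN.A0
import Pool.Agent.Helper51.TF.G1

/-!
BLOCK DP-D2 (about 200 lines). `n! u^n ≤ A₀ f²` for the deterministic shape.

Proof in words.
* `durfee`: for `μ ∈ PP N n` the number `d` of the `k` with `N ≤ bd μ k`, i.e. `k + 1 ≤ μ k`, satisfies `d² ≤ n`: these are the first `d` rows (`μ` is antitone), `μ (d-1) ≥ d`, so `n ≥ d * d`.
* `moved_le`: the `k` with `bd μ k ∉ bs κ` have `N ≤ bd μ k` (at most `d(μ)` of them) or `bd μ k` is one of the numbers `y < N`, `y ∉ bs κ`; there are `N - #{beads of κ below N} = d(κ)` of these. So their number `r` has `r ≤ d(μ) + d(κ) ≤ 2 √n`.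
* `dim_le`: `n! = ∑_{μ ∈ PP N n} ff n μ²` (`finrank_expand` for the regular representation, or a statement in `Helper70`/`Helper51`), `|PP N n| ≤ (n+1) exp(5√n)` (`card_eq` in `TF/G1` and `TN/A0`), and `ff n μ ≤ (n^K)^(r/2) ff n κ ≤ n^(K √n) ff n κ` (`RR_le`, `ff_ratio`, `image_bd_shp`; `RR` may be replaced by `n^K ≥ 1`). So `n! ≤ (n+1) exp(5√n + 2K √n log n) ff n κ²`, and
  `(n+1) exp(5√n + 2K√n log n) u^n` is bounded for `u < 1`.
-/

set_option autoImplicit false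

open Finset Pool.Agent.Helper51.TF Pool.Agent.Helper97.TF6 Pool.Agent.Helper1.DL

namespace Pool.Agent.Helper67.DP

variable {N : ℕ}

private theorem bd_lt24 {κ : Fin N → ℕ} (hκ : Antitone κ) {i j : Fin N} (h : i < j) : bd κ j < bd κ i := by
  have h1 := hκ h.le
  have h2 : (i : ℕ) < (j : ℕ) := h
  have h3 := j.2
  unfold bd
  omega

private theorem bd_inj24 {κ : Fin N → ℕ} (hκ : Antitone κ) : Function.Injective (bd κ) := by
  intro i j h
  rcases lt_trichotomy i j with h1 | h1 | h1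
  · exact absurd h (bd_lt24 hκ h1).ne'
  · exact h1
  · exact absurd h (bd_lt24 hκ h1).ne

theorem durfee {n : ℕ} {μ : Fin N → ℕ} (hμ : μ ∈ PP N n) :
    (univ.filter (fun k => N ≤ bd μ k)).card ^ 2 ≤ n := by
  obtain ⟨hm, hs⟩ := mem_PP.1 hμ
  set S := univ.filter (fun k => N ≤ bd μ k) with hS
  rcases S.eq_empty_or_nonempty with h0 | h0
  · rw [h0]
    simp
  · have hmax := S.max'_mem h0
    set k0 := S.max' h0 with hk0
    have h1 : (k0 : ℕ) + 1 ≤ μ k0 := by
      have h2 := (mem_filter.1 hmax).2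
      have h3 := k0.2
      unfold bd at h2
      omega
    have h2 : S.card ≤ (k0 : ℕ) + 1 := by
      have h3 : S.card ≤ (range ((k0 : ℕ) + 1)).card := by
        refine card_le_card_of_injOn (fun k : Fin N => (k : ℕ)) (fun k hk => ?_) (fun a _ b _ h => Fin.ext h)
        have h4 : k ≤ k0 := S.le_max' k hk
        have h5 : (k : ℕ) ≤ k0 := h4
        simp only [coe_range, Set.mem_Iio]
        omega
      rwa [card_range] at h3
    have h3 : ∀ k ∈ S, S.card ≤ μ k := fun k hk => h2.trans (h1.trans (hm (S.le_max' k hk)))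
    calc S.card ^ 2 = ∑ _k ∈ S, S.card := by rw [sum_const, smul_eq_mul, sq]
      _ ≤ ∑ k ∈ S, μ k := sum_le_sum h3
      _ ≤ ∑ k, μ k := sum_le_sum_of_subset (subset_univ _)
      _ = n := hs

theorem moved_le {n : ℕ} {κ μ : Fin N → ℕ} (hκ : κ ∈ PP N n) (hμ : μ ∈ PP N n) :
    ((univ.filter (fun k => bd μ k ∉ bs κ)).card : ℝ) ≤ 2 * Real.sqrt n := by
  have hmκ := (mem_PP.1 hκ).1
  have hmμ := (mem_PP.1 hμ).1
  set T := univ.filter (fun k => bd μ k ∉ bs κ) with hT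
  set S := univ.filter (fun k => N ≤ bd μ k) with hS
  set S' := univ.filter (fun k => N ≤ bd κ k) with hS'
  have h1 : T.card ≤ S.card + S'.card := by
    have h2 : (T.filter (fun k => N ≤ bd μ k)).card ≤ S.card := by
      refine card_le_card fun k hk => ?_
      exact mem_filter.2 ⟨mem_univ _, (mem_filter.1 hk).2⟩
    have h3 : (T.filter (fun k => ¬ N ≤ bd μ k)).card ≤ ((range N).filter (fun y => y ∉ bs κ)).card := by
      refine card_le_card_of_injOn (bd μ) (fun k hk => ?_) (fun a _ b _ h => bd_inj24 hmμ h)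
      have h4 := mem_filter.1 (mem_coe.1 hk)
      have h5 := (mem_filter.1 h4.1).2
      exact mem_coe.2 (mem_filter.2 ⟨mem_range.2 (by omega), h5⟩)
    have h4 : ((range N).filter (fun y => y ∉ bs κ)).card ≤ S'.card := by
      have h5 : ((range N).filter (fun y => y ∈ bs κ)).card + ((range N).filter (fun y => y ∉ bs κ)).card = N := by
        rw [card_filter_add_card_filter_not, card_range]
      have h6 : S'.card + (univ.filter (fun k => ¬ N ≤ bd κ k)).card = N := by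
        rw [hS', card_filter_add_card_filter_not, card_univ, Fintype.card_fin]
      have h7 : (univ.filter (fun k => ¬ N ≤ bd κ k)).card ≤ ((range N).filter (fun y => y ∈ bs κ)).card := by
        refine card_le_card_of_injOn (bd κ) (fun k hk => ?_) (fun a _ b _ h => bd_inj24 hmκ h)
        have h8 := (mem_filter.1 (mem_coe.1 hk)).2
        exact mem_coe.2 (mem_filter.2 ⟨mem_range.2 (by omega), mem_image_of_mem _ (mem_univ _)⟩)
      omega
    have h5 : (T.filter (fun k => N ≤ bd μ k)).card + (T.filter (fun k => ¬ N ≤ bd μ k)).card = T.card :=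
      card_filter_add_card_filter_not _
    omega
  have h2 : (S.card : ℝ) ≤ Real.sqrt n := by
    refine Real.le_sqrt_of_sq_le ?_
    exact_mod_cast durfee hμ
  have h3 : (S'.card : ℝ) ≤ Real.sqrt n := by
    refine Real.le_sqrt_of_sq_le ?_
    exact_mod_cast durfee hκ
  have h4 : (T.card : ℝ) ≤ S.card + S'.card := by exact_mod_cast h1
  linarith

theorem sum_sq_ff {n : ℕ} (hN : n ≤ N) :
    ∑ μ ∈ PP N n, (Pool.Agent.Helper70.TG.ff n μ) ^ 2 = (n.factorial : ℝ) := by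
  exact Pool.Agent.Helper70.TG.sum_sq hN

theorem dim_le (C u : ℝ) (hu : 0 < u) (hu1 : u < 1) : ∃ A₀ : ℝ, 0 < A₀ ∧ ∃ n₀ : ℕ, ∀ n ≥ n₀, ∀ N > n,
    ∀ A : Finset ℕ, Good C n A →
      (n.factorial : ℝ) * u ^ n ≤ A₀ * (Pool.Agent.Helper70.TG.ff n (shp N A)) ^ 2 := by
  obtain ⟨K, n₁, hK⟩ := RR_le C
  set δ : ℝ := - Real.log u with hδ
  have hδ0 : 0 < δ := by
    rw [hδ]
    have := Real.log_neg hu hu1
    linarith
  set R : ℝ := (10 + 8 * K) / δ + 1 with hR
  have hR1 : 1 ≤ R := by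
    have : 0 ≤ (10 + 8 * (K : ℝ)) / δ := by positivity
    linarith
  refine ⟨1, one_pos, max n₁ ⌈R ^ 4⌉₊, fun n hn N hN A hg => ?_⟩
  have hn1 : n₁ ≤ n := (le_max_left _ _).trans hn
  have hn2 : R ^ 4 ≤ (n : ℝ) := (Nat.le_ceil _).trans (by exact_mod_cast (le_max_right _ _).trans hn)
  have hR4 : 1 ≤ R ^ 4 := one_le_pow₀ hR1
  have hn3 : (1 : ℝ) ≤ n := hR4.trans hn2
  have hb : 0 < Real.sqrt n := Real.sqrt_pos.2 (by linarith)
  set s : ℝ := Real.sqrt (Real.sqrt n) with hs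
  have hs0 : 0 < s := Real.sqrt_pos.2 hb
  have hs2 : s ^ 2 = Real.sqrt n := Real.sq_sqrt hb.le
  have hs4 : s ^ 4 = n := by
    have h1 : s ^ 4 = (s ^ 2) ^ 2 := by ring
    rw [h1, hs2, Real.sq_sqrt (by linarith)]
  have hsR : R ≤ s := by
    have h1 : R ^ 4 ≤ s ^ 4 := by rw [hs4]; exact hn2
    exact le_of_pow_le_pow_left₀ (by norm_num) hs0.le h1
  have hs1 : 1 ≤ s := hR1.trans hsR
  have hlog : Real.log n ≤ 4 * s := by
    rw [← hs4, Real.log_pow]
    have := Real.log_le_sub_one_of_pos hs0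
    push_cast
    linarith
  have hlog0 : 0 ≤ Real.log n := Real.log_nonneg hn3
  set κ := shp N A with hκdef
  have hκ : κ ∈ PP N n := shp_mem_PP hg hN
  have hbs : bs κ = XB N A := image_bd_shp (hg.lt hN)
  have hff0 : ∀ μ : Fin N → ℕ, 0 ≤ Pool.Agent.Helper70.TG.ff n μ := fun μ => by
    unfold Pool.Agent.Helper70.TG.ff
    positivity
  have hRR : Real.sqrt (RR (Real.sqrt n) (bs κ)) ≤ Real.sqrt ((n : ℝ) ^ K) := by
    rw [hbs]
    exact Real.sqrt_le_sqrt (hK n hn1 N hN A hg)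
  have hmain : ∀ μ ∈ PP N n, (Pool.Agent.Helper70.TG.ff n μ) ^ 2 ≤
      Real.exp (8 * K * s ^ 3) * (Pool.Agent.Helper70.TG.ff n κ) ^ 2 := by
    intro μ hμ
    set r := (univ.filter (fun k => bd μ k ∉ bs κ)).card with hr
    have h1 : Pool.Agent.Helper70.TG.ff n μ ≤ Real.sqrt ((n : ℝ) ^ K) ^ r * Pool.Agent.Helper70.TG.ff n κ := by
      refine (ff_ratio hb hN.le hκ hμ).trans ?_
      exact mul_le_mul_of_nonneg_right (pow_le_pow_left₀ (Real.sqrt_nonneg _) hRR _) (hff0 κ)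
    have h2 : (Pool.Agent.Helper70.TG.ff n μ) ^ 2 ≤
        (Real.sqrt ((n : ℝ) ^ K) ^ r * Pool.Agent.Helper70.TG.ff n κ) ^ 2 :=
      pow_le_pow_left₀ (hff0 μ) h1 2
    refine h2.trans ?_
    rw [mul_pow]
    refine mul_le_mul_of_nonneg_right ?_ (sq_nonneg _)
    rw [← pow_mul, mul_comm r 2, pow_mul, Real.sq_sqrt (by positivity), ← Real.log_le_log_iff (by positivity)
      (Real.exp_pos _), Real.log_exp, Real.log_pow, Real.log_pow]
    have h3 : (r : ℝ) ≤ 2 * s ^ 2 := by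
      rw [hs2]
      exact moved_le hκ hμ
    have hK0 : (0 : ℝ) ≤ K := by positivity
    have h4 : (K : ℝ) * Real.log n ≤ K * (4 * s) := mul_le_mul_of_nonneg_left hlog hK0
    calc (r : ℝ) * (K * Real.log n) ≤ (2 * s ^ 2) * (K * (4 * s)) :=
          mul_le_mul h3 h4 (by positivity) (by positivity)
      _ = 8 * K * s ^ 3 := by ring
  have hcard : ((PP N n).card : ℝ) ≤ (n + 1) * Real.exp (5 * Real.sqrt n) := by
    have h1 := Pool.Agent.Helper51.TN.card_classes_le' n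
    rwa [card_eq hN.le] at h1
  have hsum : (n.factorial : ℝ) ≤ ((n + 1) * Real.exp (5 * Real.sqrt n)) *
      (Real.exp (8 * K * s ^ 3) * (Pool.Agent.Helper70.TG.ff n κ) ^ 2) := by
    rw [← sum_sq_ff hN.le]
    calc ∑ μ ∈ PP N n, (Pool.Agent.Helper70.TG.ff n μ) ^ 2 ≤
          ∑ _μ ∈ PP N n, Real.exp (8 * K * s ^ 3) * (Pool.Agent.Helper70.TG.ff n κ) ^ 2 := sum_le_sum hmain
      _ = ((PP N n).card : ℝ) * (Real.exp (8 * K * s ^ 3) * (Pool.Agent.Helper70.TG.ff n κ) ^ 2) := by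
          rw [sum_const, nsmul_eq_mul]
      _ ≤ _ := mul_le_mul_of_nonneg_right hcard (by positivity)
  have hun : u ^ n = Real.exp (-(δ * n)) := by
    rw [hδ, neg_mul, neg_neg, mul_comm, ← Real.log_pow, Real.exp_log (by positivity)]
  have hn4 : (n : ℝ) + 1 ≤ Real.exp (1 + 4 * s) := by
    have h1 : (n : ℝ) + 1 ≤ 2 * n := by linarith
    have h2 : (2 : ℝ) ≤ Real.exp 1 := by
      have := Real.exp_one_gt_d9
      linarith
    have h3 : (n : ℝ) ≤ Real.exp (4 * s) := by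
      rw [← Real.log_le_iff_le_exp (by linarith)]
      exact hlog
    rw [Real.exp_add]
    calc (n : ℝ) + 1 ≤ 2 * n := h1
      _ ≤ Real.exp 1 * Real.exp (4 * s) := mul_le_mul h2 h3 (by linarith) (Real.exp_pos _).le
  have hkey : ((n : ℝ) + 1) * Real.exp (5 * Real.sqrt n) * Real.exp (8 * K * s ^ 3) * u ^ n ≤ 1 := by
    have hs3 : 1 ≤ s ^ 3 := one_le_pow₀ hs1
    have h1 : ((n : ℝ) + 1) * Real.exp (5 * Real.sqrt n) * Real.exp (8 * K * s ^ 3) * u ^ n ≤
        Real.exp (1 + 4 * s) * Real.exp (5 * Real.sqrt n) * Real.exp (8 * K * s ^ 3) * u ^ n := by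
      have hup : 0 < u ^ n := by positivity
      gcongr
    refine h1.trans ?_
    rw [hun, ← Real.exp_add, ← Real.exp_add, ← Real.exp_add, Real.exp_le_one_iff, ← hs2, ← hs4]
    have h2 : s ≤ s ^ 3 := by
      have : s * 1 ≤ s * s ^ 2 := mul_le_mul_of_nonneg_left (one_le_pow₀ hs1) hs0.le
      nlinarith
    have h3 : s ^ 2 ≤ s ^ 3 := pow_le_pow_right₀ hs1 (by norm_num)
    have h4 : (10 + 8 * (K : ℝ)) ≤ δ * s := by
      have h5 : (10 + 8 * (K : ℝ)) / δ ≤ s := by linarith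
      rw [div_le_iff₀ hδ0] at h5
      linarith
    have h5 : (10 + 8 * (K : ℝ)) * s ^ 3 ≤ δ * s * s ^ 3 := mul_le_mul_of_nonneg_right h4 (by positivity)
    have h6 : δ * s * s ^ 3 = δ * s ^ 4 := by ring
    rw [h6] at h5
    linarith
  have hup : 0 < u ^ n := by positivity
  calc (n.factorial : ℝ) * u ^ n ≤ ((n + 1) * Real.exp (5 * Real.sqrt n)) *
        (Real.exp (8 * K * s ^ 3) * (Pool.Agent.Helper70.TG.ff n κ) ^ 2) * u ^ n :=
        mul_le_mul_of_nonneg_right hsum hup.le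
    _ = (((n : ℝ) + 1) * Real.exp (5 * Real.sqrt n) * Real.exp (8 * K * s ^ 3) * u ^ n) *
        (Pool.Agent.Helper70.TG.ff n κ) ^ 2 := by ring
    _ ≤ 1 * (Pool.Agent.Helper70.TG.ff n κ) ^ 2 := mul_le_mul_of_nonneg_right hkey (sq_nonneg _)

end Pool.Agent.Helper67.DP
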