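import Pool.Agent.Helper1.DL.Defs

/-!
Project DP (MP_22c541_al, Theorem F): the log potential of the deterministic shape. Definitions (helper67).
Plan: /team-store/h1_22c541_det.md (helper1), items (ii) and (iii).

* `hh t x = log |x - t + i| - log |x + t + i|`, `h1 t` its derivative in `x`.
* `HH b t`: the integral of `h1 t` against the counting function `NN b` of the limit shape; this is `∫ hh t x rho b x dx`.
* `LL b s`: the log potential of the arcsine law of `[-2b, 2b]` at the point `s + i`.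
* `FF b A l = (b^l / l!) ∏_{a ∈ A, a ≠ l} |l - a| / ∏_{a ∈ A} (l + a + 1)`.
* `WX b X y = (b^y / y!) ∏_{z ∈ X, z ≠ y} |y - z|`.
-/

set_option autoImplicit false

namespace Pool.Agent.Helper67.DP

open Pool.Agent.Helper1.DL

/-- `log |x - t + i| - log |x + t + i|`. -/
noncomputable def hh (t x : ℝ) : ℝ :=
  Real.log ((x - t) ^ 2 + 1) / 2 - Real.log ((x + t) ^ 2 + 1) / 2

/-- The derivative of `hh t`. -/
noncomputable def h1 (t x : ℝ) : ℝ :=
  (x - t) / ((x - t) ^ 2 + 1) - (x + t) / ((x + t) ^ 2 + 1)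

/-- The smoothed log potential of the limit shape. -/
noncomputable def HH (b t : ℝ) : ℝ := ∫ x in (0 : ℝ)..(2 * b), h1 t x * NN b x

/-- The log potential of the arcsine law of `[-2b, 2b]` at the point `s + i`. -/
noncomputable def LL (b s : ℝ) : ℝ :=
  (∫ φ in (0 : ℝ)..Real.pi, Real.log ((s - 2 * b * Real.cos φ) ^ 2 + 1) / 2) / Real.pi

/-- The potential of the shape `(A | A)`. -/
noncomputable def FF (b : ℝ) (A : Finset ℕ) (l : ℕ) : ℝ :=
  b ^ l / (l.factorial : ℝ) * (∏ a ∈ A.erase l, |(l : ℝ) - a|) / ∏ a ∈ A, ((l : ℝ) + a + 1)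

/-- The potential of a set of beads. -/
noncomputable def WX (b : ℝ) (X : Finset ℕ) (y : ℕ) : ℝ :=
  b ^ y / (y.factorial : ℝ) * ∏ z ∈ X.erase y, |(y : ℝ) - z|

end Pool.Agent.Helper67.DP
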