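import Pool.Agent.Helper67.DP.Defs

/-!
BLOCK DP-L1 (about 200 lines; only Mathlib). The log potential of the arcsine law at `z = s + i`.

Proof in words.
* `LL_eq`. Let `z = s + i`. There is `w ≠ 0` with `w + 1/w = z / b` (a quadratic equation over `ℂ`; `IsAlgClosed.exists_quadratic_eq_zero` or `Complex.cpow`), and we may take `1 ≤ ‖w‖` (exchange `w` and `1/w`). For real `φ` and `ζ = exp(iφ)`:
  `2 b cos φ = b (ζ + 1/ζ)`, `z - 2 b cos φ = b (w - ζ) (1 - 1/(w ζ))`, so `|z - 2 b cos φ| = b |ζ - w| |ζ - 1/w|` (as `|ζ| = 1`), and `(s - 2 b cos φ)² + 1 = |z - 2 b cos φ|²`. Hence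
  `(1/2π) ∫_0^{2π} log ((s - 2 b cos φ)² + 1)/2 dφ = log b + log⁺ ‖w‖ + log⁺ ‖1/w‖ = log b + log ‖w‖` (`circleAverage_log_norm_sub_const_eq_posLog`, integrability `circleIntegrable_log_norm_sub_const`). The integral over `[0, 2π]` is twice the integral over `[0, π]` (`φ ↦ 2π - φ`).
* `log_le_LL`: `0 ≤ log ‖w‖`.
* `LL_le`. Write `w = x + i y`, `r = ‖w‖`. `b x (1 + 1/r²) = s`, `b y (1 - 1/r²) = 1` (`1/w = conj w / r²`). So `r > 1`, `y > 0`, `(r - 1/r)/2 = r / (2 b y)`, and `x / r = s / (b (r + 1/r)) ≤ s / (2 b)`, so `y / r ≥ √(1 - s²/(4b²))`: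
  `(r - 1/r)/2 ≤ 1 / √(4b² - s²)`. Finally `log r ≤ (r - 1/r)/2` for `r ≥ 1` (derivative, or `Real.self_le_sinh_iff` with `r = exp x`).
* `LL_le'`: `(s - 2 b cos φ)² + 1 ≤ (s + 1 + 2 b)²`, so the integrand is at most `log (s + 1 + 2b)`; the interval has length `π`.
* `LL_cont`: `intervalIntegral.continuous_parametric_intervalIntegral_of_continuous'` (the integrand is jointly continuous, as the argument of the logarithm is `≥ 1`).
-/

set_option autoImplicit false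

namespace Pool.Agent.Helper67.DP

/-- the integrand -/
private noncomputable def g38 (b s φ : ℝ) : ℝ := Real.log ((s - 2 * b * Real.cos φ) ^ 2 + 1) / 2

private theorem g38_cont2 (b : ℝ) : Continuous fun p : ℝ × ℝ => g38 b p.1 p.2 := by
  unfold g38
  refine Continuous.div_const (Continuous.log (by fun_prop) fun p => ?_) _
  positivity

private theorem g38_cont (b s : ℝ) : Continuous (g38 b s) :=
  (g38_cont2 b).comp (continuous_const.prodMk continuous_id)

private theorem LL38 (b s : ℝ) : LL b s = (∫ φ in (0 : ℝ)..Real.pi, g38 b s φ) / Real.pi := rfl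

private theorem two38 (b s : ℝ) : ∫ φ in (0 : ℝ)..(2 * Real.pi), g38 b s φ = 2 * ∫ φ in (0 : ℝ)..Real.pi, g38 b s φ := by
  have h1 : ∫ φ in Real.pi..(2 * Real.pi), g38 b s φ = ∫ φ in (0 : ℝ)..Real.pi, g38 b s φ := by
    have h2 := intervalIntegral.integral_comp_sub_left (a := 0) (b := Real.pi) (g38 b s) (2 * Real.pi)
    rw [show 2 * Real.pi - Real.pi = Real.pi by ring, sub_zero] at h2
    rw [← h2]
    refine intervalIntegral.integral_congr fun φ _ => ?_
    show g38 b s (2 * Real.pi - φ) = g38 b s φ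
    unfold g38
    rw [Real.cos_two_pi_sub]
  rw [← intervalIntegral.integral_add_adjacent_intervals ((g38_cont b s).intervalIntegrable _ _)
    ((g38_cont b s).intervalIntegrable _ _) (b := Real.pi), h1]
  ring

private theorem nrm38 (X : ℝ) : ‖(X : ℂ) + Complex.I‖ ^ 2 = X ^ 2 + 1 := by
  rw [← Complex.normSq_eq_norm_sq, Complex.normSq_apply]
  simp
  ring

private theorem fac38 {b : ℝ} (hb : 0 < b) (s : ℝ) {w : ℂ} (hw : w ≠ 0) (h : (b : ℂ) * (w + w⁻¹) = (s : ℂ) + Complex.I) (φ : ℝ) :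
    g38 b s φ = Real.log b + (Real.log ‖circleMap 0 1 φ - w‖ + Real.log ‖circleMap 0 1 φ - w⁻¹‖) := by
  set ζ := circleMap 0 1 φ with hζdef
  have hζ : ‖ζ‖ = 1 := by simp [hζdef]
  have hζ0 : ζ ≠ 0 := by
    intro h0
    rw [h0, norm_zero] at hζ
    exact zero_ne_one hζ
  have hcos : ((2 * Real.cos φ : ℝ) : ℂ) = ζ + ζ⁻¹ := by
    rw [hζdef, circleMap_zero]
    push_cast
    rw [one_mul, ← Complex.exp_neg, Complex.cos]
    ring_nf
  have h1 : ((s - 2 * b * Real.cos φ : ℝ) : ℂ) + Complex.I = -(b : ℂ) * ζ⁻¹ * ((ζ - w) * (ζ - w⁻¹)) := by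
    have h2 : ((s - 2 * b * Real.cos φ : ℝ) : ℂ) = (s : ℂ) - b * ((2 * Real.cos φ : ℝ) : ℂ) := by
      push_cast
      ring
    rw [h2, hcos]
    have h3 : (s : ℂ) - b * (ζ + ζ⁻¹) + Complex.I = b * (w + w⁻¹) - b * (ζ + ζ⁻¹) := by
      rw [h]
      ring
    rw [h3]
    field_simp
    ring
  have h2 : ‖((s - 2 * b * Real.cos φ : ℝ) : ℂ) + Complex.I‖ ^ 2 = (s - 2 * b * Real.cos φ) ^ 2 + 1 := nrm38 _
  have h3 : ‖((s - 2 * b * Real.cos φ : ℝ) : ℂ) + Complex.I‖ = b * (‖ζ - w‖ * ‖ζ - w⁻¹‖) := by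
    rw [h1, norm_mul, norm_mul, norm_mul, norm_neg, norm_inv, hζ, Complex.norm_real, Real.norm_of_nonneg hb.le]
    ring
  have h4 : 0 < b * (‖ζ - w‖ * ‖ζ - w⁻¹‖) := by
    rw [← h3]
    refine (norm_nonneg _).lt_of_ne fun h5 => ?_
    rw [← h5] at h2
    nlinarith [sq_nonneg (s - 2 * b * Real.cos φ)]
  have h5 : ‖ζ - w‖ ≠ 0 := fun h => by rw [h] at h4; simp at h4
  have h6 : ‖ζ - w⁻¹‖ ≠ 0 := fun h => by rw [h] at h4; simp at h4
  unfold g38
  rw [← h2, h3, Real.log_pow, Real.log_mul hb.ne' (mul_ne_zero h5 h6), Real.log_mul h5 h6]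
  push_cast
  ring

theorem LL_eq {b : ℝ} (hb : 0 < b) (s : ℝ) : ∃ w : ℂ, 1 ≤ ‖w‖ ∧
    (b : ℂ) * (w + w⁻¹) = (s : ℂ) + Complex.I ∧ LL b s = Real.log b + Real.log ‖w‖ := by
  obtain ⟨δ, hδ⟩ := IsAlgClosed.exists_eq_mul_self ((((s : ℂ) + Complex.I) / b) ^ 2 - 4)
  have hbc : (b : ℂ) ≠ 0 := by exact_mod_cast hb.ne'
  obtain ⟨w0, hw0⟩ : ∃ w0 : ℂ, w0 = (((s : ℂ) + Complex.I) / b + δ) / 2 := ⟨_, rfl⟩
  have hq : w0 * w0 - (((s : ℂ) + Complex.I) / b) * w0 + 1 = 0 := by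
    rw [hw0]
    linear_combination (-1 / 4 : ℂ) * hδ
  have hne0 : w0 ≠ 0 := by
    rintro rfl
    simp at hq
  have hsum : w0 + w0⁻¹ = ((s : ℂ) + Complex.I) / b := by
    field_simp
    field_simp at hq
    linear_combination hq
  obtain ⟨w, hw1, hw0', hwsum⟩ : ∃ w : ℂ, 1 ≤ ‖w‖ ∧ w ≠ 0 ∧ w + w⁻¹ = ((s : ℂ) + Complex.I) / b := by
    rcases le_total 1 ‖w0‖ with h | h
    · exact ⟨w0, h, hne0, hsum⟩
    · refine ⟨w0⁻¹, ?_, inv_ne_zero hne0, ?_⟩
      · rw [norm_inv]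
        exact (one_le_inv₀ (norm_pos_iff.2 hne0)).2 h
      · rw [inv_inv, add_comm]
        exact hsum
  have hmain : (b : ℂ) * (w + w⁻¹) = (s : ℂ) + Complex.I := by
    rw [hwsum, mul_div_cancel₀ _ hbc]
  refine ⟨w, hw1, hmain, ?_⟩
  have h1 : ∫ φ in (0 : ℝ)..(2 * Real.pi), g38 b s φ =
      ∫ φ in (0 : ℝ)..(2 * Real.pi), (Real.log b + (Real.log ‖circleMap 0 1 φ - w‖ + Real.log ‖circleMap 0 1 φ - w⁻¹‖)) :=
    intervalIntegral.integral_congr fun φ _ => fac38 hb s hw0' hmain φ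
  have i1 : IntervalIntegrable (fun φ => Real.log ‖circleMap 0 1 φ - w‖) MeasureTheory.volume 0 (2 * Real.pi) :=
    circleIntegrable_log_norm_sub_const (a := w) (c := 0) 1
  have i2 : IntervalIntegrable (fun φ => Real.log ‖circleMap 0 1 φ - w⁻¹‖) MeasureTheory.volume 0 (2 * Real.pi) :=
    circleIntegrable_log_norm_sub_const (a := w⁻¹) (c := 0) 1
  have a1 : (2 * Real.pi)⁻¹ * ∫ φ in (0 : ℝ)..(2 * Real.pi), Real.log ‖circleMap 0 1 φ - w‖ = Real.log ‖w‖ := by
    have h2 := circleAverage_log_norm_sub_const_eq_posLog (a := w)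
    rw [Real.circleAverage_def, smul_eq_mul, Real.posLog_eq_log (by rwa [abs_of_nonneg (norm_nonneg _)])] at h2
    exact h2
  have a2 : (2 * Real.pi)⁻¹ * ∫ φ in (0 : ℝ)..(2 * Real.pi), Real.log ‖circleMap 0 1 φ - w⁻¹‖ = 0 := by
    have h2 := circleAverage_log_norm_sub_const_eq_posLog (a := w⁻¹)
    rw [Real.circleAverage_def, smul_eq_mul, (Real.posLog_eq_zero_iff _).2 (by
      rw [abs_of_nonneg (norm_nonneg _), norm_inv]
      exact inv_le_one_of_one_le₀ hw1)] at h2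
    exact h2
  rw [intervalIntegral.integral_add (by simp) (i1.add i2), intervalIntegral.integral_add i1 i2,
    intervalIntegral.integral_const, sub_zero, two38, smul_eq_mul] at h1
  have hpi := Real.pi_pos
  rw [LL38, div_eq_iff hpi.ne']
  have a1' : ∫ φ in (0 : ℝ)..(2 * Real.pi), Real.log ‖circleMap 0 1 φ - w‖ = 2 * Real.pi * Real.log ‖w‖ := by
    rw [← a1]
    field_simp
  have a2' : ∫ φ in (0 : ℝ)..(2 * Real.pi), Real.log ‖circleMap 0 1 φ - w⁻¹‖ = 0 := by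
    rcases mul_eq_zero.1 a2 with h | h
    · exact absurd h (by positivity)
    · exact h
  rw [a1', a2'] at h1
  linarith

theorem log_le_LL {b : ℝ} (hb : 0 < b) (s : ℝ) : Real.log b ≤ LL b s := by
  obtain ⟨w, h1, -, h3⟩ := LL_eq hb s
  rw [h3]
  have := Real.log_nonneg h1
  linarith

theorem LL_le {b s : ℝ} (hb : 0 < b) (hs : 0 ≤ s) (hs2 : s < 2 * b) :
    LL b s ≤ Real.log b + 1 / Real.sqrt (4 * b ^ 2 - s ^ 2) := by
  obtain ⟨w, h1, h2, h3⟩ := LL_eq hb s
  rw [h3]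
  set r := ‖w‖ with hr
  have hr0 : 0 < r := by linarith
  have hn : w.re ^ 2 + w.im ^ 2 = r ^ 2 := by
    rw [hr, ← Complex.normSq_eq_norm_sq, Complex.normSq_apply]
    ring
  have hnsq : Complex.normSq w = r ^ 2 := Complex.normSq_eq_norm_sq w
  have hre : b * (w.re + w.re / r ^ 2) = s := by
    have h4 := congrArg Complex.re h2
    simpa [Complex.inv_re, hnsq] using h4
  have him : b * (w.im - w.im / r ^ 2) = 1 := by
    have h4 := congrArg Complex.im h2
    simp only [Complex.mul_im, Complex.ofReal_re, Complex.ofReal_im, Complex.add_im, Complex.inv_im, hnsq, Complex.I_im,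
      zero_mul, add_zero, zero_add] at h4
    rw [neg_div] at h4
    linarith
  set x := w.re with hx
  set y := w.im with hy
  have hr2 : 0 < r ^ 2 := by positivity
  have him' : b * y * (r ^ 2 - 1) = r ^ 2 := by
    field_simp at him
    linarith
  have hre' : b * x * (r ^ 2 + 1) = s * r ^ 2 := by
    field_simp at hre
    linarith
  have hr1 : 1 < r := by
    refine lt_of_le_of_ne h1 fun h => ?_
    rw [← h] at him'
    norm_num at him'
  have hy0 : 0 < y := by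
    have h4 : 0 < r ^ 2 - 1 := by nlinarith
    by_contra hc
    rw [not_lt] at hc
    have : b * y * (r ^ 2 - 1) ≤ 0 := mul_nonpos_of_nonpos_of_nonneg (mul_nonpos_of_nonneg_of_nonpos hb.le hc) h4.le
    linarith
  have hx0 : 0 ≤ x := by
    by_contra hc
    rw [not_le] at hc
    have : b * x * (r ^ 2 + 1) < 0 := mul_neg_of_neg_of_pos (mul_neg_of_pos_of_neg hb hc) (by positivity)
    nlinarith
  have hD : 0 < 4 * b ^ 2 - s ^ 2 := by nlinarith
  -- `2 b x ≤ s r`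
  have hx1 : 2 * b * x ≤ s * r := by
    have h4 : 2 * r ≤ r ^ 2 + 1 := by nlinarith [sq_nonneg (r - 1)]
    have h5 : b * x * (2 * r) ≤ b * x * (r ^ 2 + 1) := mul_le_mul_of_nonneg_left h4 (by positivity)
    rw [hre'] at h5
    have h6 : (2 * b * x) * r ≤ (s * r) * r := by nlinarith
    exact le_of_mul_le_mul_right h6 hr0
  -- `r² (4 b² - s²) ≤ (2 b y)²`
  have hy1 : r ^ 2 * (4 * b ^ 2 - s ^ 2) ≤ (2 * b * y) ^ 2 := by
    have h4 : (2 * b * x) ^ 2 ≤ (s * r) ^ 2 := pow_le_pow_left₀ (by positivity) hx1 2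
    nlinarith
  have hy2 : r * Real.sqrt (4 * b ^ 2 - s ^ 2) ≤ 2 * b * y := by
    refine (pow_le_pow_iff_left₀ (by positivity) (by positivity) two_ne_zero).1 ?_
    rw [mul_pow, Real.sq_sqrt hD.le]
    exact hy1
  have hs0 : 0 < Real.sqrt (4 * b ^ 2 - s ^ 2) := Real.sqrt_pos.2 hD
  have h4 : (r - 1 / r) / 2 ≤ 1 / Real.sqrt (4 * b ^ 2 - s ^ 2) := by
    have h5 : (r - 1 / r) / 2 = r / (2 * b * y) := by
      field_simp
      nlinarith
    rw [h5, div_le_div_iff₀ (by positivity) hs0]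
    linarith
  have h5 : Real.log r ≤ (r - 1 / r) / 2 := by
    have h6 := Real.self_le_sinh_iff.2 (Real.log_nonneg h1)
    rw [Real.sinh_eq, Real.exp_log hr0, Real.exp_neg, Real.exp_log hr0] at h6
    rw [one_div]
    exact h6
  linarith

theorem LL_le' {b s : ℝ} (hb : 0 < b) (hs : 0 ≤ s) : LL b s ≤ Real.log (s + 1 + 2 * b) := by
  have hpi := Real.pi_pos
  rw [LL38, div_le_iff₀ hpi]
  have h1 : ∫ φ in (0 : ℝ)..Real.pi, g38 b s φ ≤ ∫ _ in (0 : ℝ)..Real.pi, Real.log (s + 1 + 2 * b) := by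
    refine intervalIntegral.integral_mono_on hpi.le ((g38_cont b s).intervalIntegrable _ _) (by simp) fun φ _ => ?_
    unfold g38
    have hc1 := Real.cos_le_one φ
    have hc2 := Real.neg_one_le_cos φ
    have h2 : (s - 2 * b * Real.cos φ) ^ 2 + 1 ≤ (s + 1 + 2 * b) ^ 2 := by
      have h3 : |s - 2 * b * Real.cos φ| ≤ s + 2 * b := by
        rw [abs_le]
        constructor <;> nlinarith
      have h4 := sq_abs (s - 2 * b * Real.cos φ)
      have h5 := pow_le_pow_left₀ (abs_nonneg _) h3 2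
      rw [h4] at h5
      nlinarith
    have h3 : Real.log ((s - 2 * b * Real.cos φ) ^ 2 + 1) ≤ Real.log ((s + 1 + 2 * b) ^ 2) :=
      Real.log_le_log (by positivity) h2
    rw [Real.log_pow] at h3
    push_cast at h3
    linarith
  rw [intervalIntegral.integral_const, sub_zero, smul_eq_mul] at h1
  linarith

theorem LL_cont (b : ℝ) : Continuous (LL b) := by
  have h1 : Continuous fun s => ∫ φ in (0 : ℝ)..Real.pi, g38 b s φ :=
    intervalIntegral.continuous_parametric_intervalIntegral_of_continuous' (g38_cont2 b) _ _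
  exact h1.div_const _

end Pool.Agent.Helper67.DP
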