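import Pool.Agent.Helper67.DP.Defs

/-!
BLOCK DP-L2 (about 200 lines; only Mathlib). The potential of the limit shape is an integral of potentials of the arcsine law: two integrations by parts and Fubini. Everything is smooth.

Proof in words. `c φ = 2 b cos φ`.
* `NN_cos`: `√(1 - cos² φ) = sin φ`, `arccos (cos φ) = φ` for `0 ≤ φ ≤ π/2`.
* `HH_parts`: substitution `x = 2 b cos φ` (`intervalIntegral.integral_comp_mul_deriv`, `φ` from `π/2` to `0`): `HH b t = ∫_0^{π/2} h1 t (c φ) * (2b/π)(sin φ - φ cos φ) * 2 b sin φ dφ`. With `U φ = - hh t (c φ)`, `U' φ = h1 t (c φ) 2 b sin φ` (`hh t` has the derivative `h1 t`), `V φ = (2b/π)(sin φ - φ cos φ)`,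
  `V' φ = (2b/π) φ sin φ`: `[U V] = 0` (`V 0 = 0`, `hh t 0 = 0`), so `HH b t = (2b/π) ∫_0^{π/2} hh t (c φ) φ sin φ dφ`.
* `inner_parts`: for `q s x = log((x-s)²+1)/2 + log((x+s)²+1)/2` we have `∂_x q s x = - k s x`, `k s x := ∂_s hh s x = -(x-s)/((x-s)²+1) - (x+s)/((x+s)²+1)`. So `d/dφ q s (c φ) = 2 b sin φ * k s (c φ)` and by parts
  `(2b/π) ∫_0^{π/2} k s (c φ) φ sin φ dφ = (1/π) [φ q s (c φ)]_0^{π/2} - (1/π) ∫_0^{π/2} q s (c φ) dφ = log(s²+1)/2 - LL b s`: `q s 0 = log(s²+1)`, and `∫_0^π log((s - 2b cos φ)²+1)/2 dφ = ∫_0^{π/2} q s (c φ) dφ` (split at `π/2`, substitute `φ ↦ π - φ` in the second part, `cos (π - φ) = - cos φ`).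
* `HH_eq`: `hh t x = ∫_0^t k s x ds` (`hh 0 x = 0`); Fubini (`intervalIntegral_integral_interval_swap`, continuous integrand) in `HH_parts`, then `inner_parts`.
-/

set_option autoImplicit false

namespace Pool.Agent.Helper67.DP

open Pool.Agent.Helper1.DL

private theorem dlog34 (s x : ℝ) :
    HasDerivAt (fun x : ℝ => Real.log ((x - s) ^ 2 + 1) / 2) ((x - s) / ((x - s) ^ 2 + 1)) x := by
  have h0 : (x - s) ^ 2 + 1 ≠ 0 := by positivity
  have h1 : HasDerivAt (fun x : ℝ => (x - s) ^ 2 + 1) (2 * (x - s)) x := by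
    have := ((hasDerivAt_id x).sub_const s).pow 2 |>.add_const 1
    simpa using this
  have h2 := (h1.log h0).div_const 2
  refine h2.congr_deriv ?_
  field_simp

private theorem dlog34' (s x : ℝ) :
    HasDerivAt (fun x : ℝ => Real.log ((x + s) ^ 2 + 1) / 2) ((x + s) / ((x + s) ^ 2 + 1)) x := by
  have := dlog34 (-s) x
  simpa [sub_neg_eq_add] using this

private theorem ch1_34 (s : ℝ) : Continuous fun x : ℝ => (x - s) / ((x - s) ^ 2 + 1) :=
  Continuous.div (by fun_prop) (by fun_prop) fun x => by positivity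

private theorem ch1_34' (s : ℝ) : Continuous fun x : ℝ => (x + s) / ((x + s) ^ 2 + 1) :=
  Continuous.div (by fun_prop) (by fun_prop) fun x => by positivity

private theorem dc34 (b φ : ℝ) : HasDerivAt (fun φ : ℝ => 2 * b * Real.cos φ) (-(2 * b * Real.sin φ)) φ := by
  have := (Real.hasDerivAt_cos φ).const_mul (2 * b)
  simpa using this

private theorem hh_zero34 (t : ℝ) : hh t 0 = 0 := by
  unfold hh
  have h : ((0 : ℝ) - t) ^ 2 = (0 + t) ^ 2 := by ring
  rw [h, sub_self]

private theorem clog34 (s : ℝ) : Continuous fun x : ℝ => Real.log ((x - s) ^ 2 + 1) / 2 := by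
  refine Continuous.div_const (Continuous.log (by fun_prop) fun x => ?_) 2
  positivity

private theorem clog34' (s : ℝ) : Continuous fun x : ℝ => Real.log ((x + s) ^ 2 + 1) / 2 := by
  refine Continuous.div_const (Continuous.log (by fun_prop) fun x => ?_) 2
  positivity

theorem NN_cos {b φ : ℝ} (hb : 0 < b) (h0 : 0 ≤ φ) (h1 : φ ≤ Real.pi / 2) :
    NN b (2 * b * Real.cos φ) = 2 * b / Real.pi * (Real.sin φ - φ * Real.cos φ) := by
  unfold NN
  have h2 : 2 * b * Real.cos φ / (2 * b) = Real.cos φ := by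
    rw [mul_div_assoc, mul_comm (2 * b), div_mul_cancel₀]
    positivity
  have hpi := Real.pi_pos
  have h3 : Real.sqrt (1 - Real.cos φ ^ 2) = Real.sin φ := by
    rw [← Real.sin_sq]
    exact Real.sqrt_sq (Real.sin_nonneg_of_nonneg_of_le_pi h0 (by linarith))
  rw [h2, h3, Real.arccos_cos h0 (by linarith)]
  ring

theorem HH_parts {b : ℝ} (hb : 0 < b) (t : ℝ) :
    HH b t = 2 * b / Real.pi * ∫ φ in (0 : ℝ)..(Real.pi / 2), hh t (2 * b * Real.cos φ) * (φ * Real.sin φ) := by
  have hpi := Real.pi_pos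
  have hh1c : Continuous (h1 t) := by
    unfold h1
    exact (ch1_34 t).sub (ch1_34' t)
  have hNc : Continuous (NN b) := by
    unfold NN
    have hx : Continuous fun x : ℝ => x / (2 * b) := continuous_id.div_const _
    exact continuous_const.mul (((continuous_const.sub (hx.pow 2)).sqrt).sub (hx.mul (Real.continuous_arccos.comp hx)))
  have e1 := intervalIntegral.integral_comp_mul_deriv (a := Real.pi / 2) (b := 0) (f := fun φ : ℝ => 2 * b * Real.cos φ)
    (f' := fun φ => -(2 * b * Real.sin φ)) (g := fun x => h1 t x * NN b x) (fun x _ => dc34 b x)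
    (by fun_prop) (hh1c.mul hNc)
  simp only [Real.cos_pi_div_two, mul_zero, Real.cos_zero, mul_one] at e1
  have e2 : HH b t = ∫ φ in (0 : ℝ)..(Real.pi / 2), (2 * b / Real.pi * (Real.sin φ - φ * Real.cos φ)) *
      (h1 t (2 * b * Real.cos φ) * (2 * b * Real.sin φ)) := by
    unfold HH
    rw [← e1, intervalIntegral.integral_symm, ← intervalIntegral.integral_neg]
    refine intervalIntegral.integral_congr fun φ hφ => ?_
    rw [Set.uIcc_of_le (by positivity)] at hφ
    have h3 := NN_cos hb hφ.1 hφ.2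
    simp only [Function.comp_apply]
    rw [h3]
    ring
  have dV : ∀ φ : ℝ, HasDerivAt (fun φ : ℝ => 2 * b / Real.pi * (Real.sin φ - φ * Real.cos φ))
      (2 * b / Real.pi * (φ * Real.sin φ)) φ := by
    intro φ
    have h3 := ((Real.hasDerivAt_sin φ).sub ((hasDerivAt_id φ).mul (Real.hasDerivAt_cos φ))).const_mul (2 * b / Real.pi)
    refine h3.congr_deriv ?_
    simp only [id]
    ring
  have dU : ∀ φ : ℝ, HasDerivAt (fun φ : ℝ => -hh t (2 * b * Real.cos φ))
      (h1 t (2 * b * Real.cos φ) * (2 * b * Real.sin φ)) φ := by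
    intro φ
    have h3 : HasDerivAt (hh t) (h1 t (2 * b * Real.cos φ)) (2 * b * Real.cos φ) :=
      (dlog34 t (2 * b * Real.cos φ)).sub (dlog34' t (2 * b * Real.cos φ))
    have h4 := (h3.comp φ (dc34 b φ)).neg
    refine h4.congr_deriv ?_
    ring
  have cU' : Continuous fun φ : ℝ => h1 t (2 * b * Real.cos φ) * (2 * b * Real.sin φ) :=
    (hh1c.comp (by fun_prop)).mul (by fun_prop)
  have cV' : Continuous fun φ : ℝ => 2 * b / Real.pi * (φ * Real.sin φ) := by fun_prop
  have e3 := intervalIntegral.integral_mul_deriv_eq_deriv_mul (a := 0) (b := Real.pi / 2)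
    (u := fun φ : ℝ => 2 * b / Real.pi * (Real.sin φ - φ * Real.cos φ)) (v := fun φ : ℝ => -hh t (2 * b * Real.cos φ))
    (u' := fun φ : ℝ => 2 * b / Real.pi * (φ * Real.sin φ)) (v' := fun φ => h1 t (2 * b * Real.cos φ) * (2 * b * Real.sin φ))
    (fun φ _ => dV φ) (fun φ _ => dU φ) (cV'.intervalIntegrable _ _) (cU'.intervalIntegrable _ _)
  rw [e2, e3]
  simp only [Real.cos_pi_div_two, mul_zero, hh_zero34, neg_zero, Real.sin_zero, zero_mul, sub_zero, zero_sub, sub_self]
  rw [← intervalIntegral.integral_neg, ← intervalIntegral.integral_const_mul]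
  refine intervalIntegral.integral_congr fun φ _ => ?_
  ring

theorem inner_parts {b : ℝ} (hb : 0 < b) (s : ℝ) :
    2 * b / Real.pi * (∫ φ in (0 : ℝ)..(Real.pi / 2),
      (-((2 * b * Real.cos φ - s) / ((2 * b * Real.cos φ - s) ^ 2 + 1)) -
        (2 * b * Real.cos φ + s) / ((2 * b * Real.cos φ + s) ^ 2 + 1)) * (φ * Real.sin φ)) =
      Real.log (s ^ 2 + 1) / 2 - LL b s := by
  have hpi := Real.pi_pos
  have dq : ∀ φ : ℝ, HasDerivAt (fun φ : ℝ => Real.log ((2 * b * Real.cos φ - s) ^ 2 + 1) / 2 +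
      Real.log ((2 * b * Real.cos φ + s) ^ 2 + 1) / 2)
      ((2 * b) * ((-((2 * b * Real.cos φ - s) / ((2 * b * Real.cos φ - s) ^ 2 + 1)) -
        (2 * b * Real.cos φ + s) / ((2 * b * Real.cos φ + s) ^ 2 + 1)) * Real.sin φ)) φ := by
    intro φ
    have h3 := (dlog34 s (2 * b * Real.cos φ)).comp φ (dc34 b φ)
    have h4 := (dlog34' s (2 * b * Real.cos φ)).comp φ (dc34 b φ)
    have h5 := h3.add h4
    refine h5.congr_deriv ?_
    ring
  have cc : Continuous fun φ : ℝ => 2 * b * Real.cos φ := by fun_prop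
  have cq' : Continuous fun φ : ℝ => (2 * b) * ((-((2 * b * Real.cos φ - s) / ((2 * b * Real.cos φ - s) ^ 2 + 1)) -
        (2 * b * Real.cos φ + s) / ((2 * b * Real.cos φ + s) ^ 2 + 1)) * Real.sin φ) := by
    have h3 := (ch1_34 s).comp cc
    have h4 := (ch1_34' s).comp cc
    exact continuous_const.mul ((h3.neg.sub h4).mul Real.continuous_sin)
  have e3 := intervalIntegral.integral_mul_deriv_eq_deriv_mul (a := 0) (b := Real.pi / 2)
    (u := fun φ : ℝ => φ) (u' := fun _ : ℝ => 1) (fun φ _ => hasDerivAt_id φ) (fun φ _ => dq φ)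
    (continuous_const.intervalIntegrable _ _) (cq'.intervalIntegrable _ _)
  simp only [Real.cos_pi_div_two, mul_zero, zero_sub, zero_add, zero_mul, sub_zero, one_mul] at e3
  -- the potential of the arcsine law
  have cF : Continuous fun φ : ℝ => Real.log ((s - 2 * b * Real.cos φ) ^ 2 + 1) / 2 := by
    refine Continuous.div_const (Continuous.log (by fun_prop) fun x => ?_) 2
    positivity
  have e4 := intervalIntegral.integral_add_adjacent_intervals (a := 0) (b := Real.pi / 2) (c := Real.pi)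
    (cF.intervalIntegrable (μ := MeasureTheory.volume) _ _) (cF.intervalIntegrable _ _)
  have e5 := intervalIntegral.integral_comp_sub_left (a := 0) (b := Real.pi / 2)
    (fun φ : ℝ => Real.log ((s - 2 * b * Real.cos φ) ^ 2 + 1) / 2) Real.pi
  have e6 : Real.pi - Real.pi / 2 = Real.pi / 2 := by ring
  rw [e6, sub_zero] at e5
  have cG1 : Continuous fun φ : ℝ => Real.log ((2 * b * Real.cos φ - s) ^ 2 + 1) / 2 := (clog34 s).comp cc
  have cG2 : Continuous fun φ : ℝ => Real.log ((2 * b * Real.cos φ + s) ^ 2 + 1) / 2 := (clog34' s).comp cc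
  have e7 : (∫ φ in (0 : ℝ)..Real.pi, Real.log ((s - 2 * b * Real.cos φ) ^ 2 + 1) / 2) =
      ∫ φ in (0 : ℝ)..(Real.pi / 2), (Real.log ((2 * b * Real.cos φ - s) ^ 2 + 1) / 2 +
        Real.log ((2 * b * Real.cos φ + s) ^ 2 + 1) / 2) := by
    rw [← e4, ← e5, intervalIntegral.integral_add (cG1.intervalIntegrable _ _) (cG2.intervalIntegrable _ _)]
    congr 1
    · refine intervalIntegral.integral_congr fun φ _ => ?_
      have h3 : (s - 2 * b * Real.cos φ) ^ 2 = (2 * b * Real.cos φ - s) ^ 2 := by ring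
      simp only [h3]
    · refine intervalIntegral.integral_congr fun φ _ => ?_
      have h3 : (s - 2 * b * Real.cos (Real.pi - φ)) ^ 2 = (2 * b * Real.cos φ + s) ^ 2 := by
        rw [Real.cos_pi_sub]
        ring
      simp only [h3]
  have e8 : (∫ φ in (0 : ℝ)..(Real.pi / 2), φ * ((2 * b) * ((-((2 * b * Real.cos φ - s) / ((2 * b * Real.cos φ - s) ^ 2 + 1)) -
        (2 * b * Real.cos φ + s) / ((2 * b * Real.cos φ + s) ^ 2 + 1)) * Real.sin φ))) =
      2 * b * (∫ φ in (0 : ℝ)..(Real.pi / 2),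
      (-((2 * b * Real.cos φ - s) / ((2 * b * Real.cos φ - s) ^ 2 + 1)) -
        (2 * b * Real.cos φ + s) / ((2 * b * Real.cos φ + s) ^ 2 + 1)) * (φ * Real.sin φ)) := by
    rw [← intervalIntegral.integral_const_mul]
    refine intervalIntegral.integral_congr fun φ _ => ?_
    ring
  rw [e8] at e3
  unfold LL
  rw [e7, div_mul_eq_mul_div, e3]
  have h9 : (-s) ^ 2 = s ^ 2 := by ring
  rw [h9]
  field_simp
  ring

theorem HH_eq {b : ℝ} (hb : 0 < b) (t : ℝ) :
    HH b t = ∫ s in (0 : ℝ)..t, (Real.log (s ^ 2 + 1) / 2 - LL b s) := by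
  have hpi := Real.pi_pos
  rw [HH_parts hb t]
  have dk : ∀ x s : ℝ, HasDerivAt (fun s : ℝ => hh s x)
      (-((x - s) / ((x - s) ^ 2 + 1)) - (x + s) / ((x + s) ^ 2 + 1)) s := by
    intro x s
    have h3 : HasDerivAt (fun s : ℝ => Real.log ((s - x) ^ 2 + 1) / 2) ((s - x) / ((s - x) ^ 2 + 1)) s := dlog34 x s
    have h4 : HasDerivAt (fun s : ℝ => Real.log ((s + x) ^ 2 + 1) / 2) ((s + x) / ((s + x) ^ 2 + 1)) s := dlog34' x s
    have h5 : HasDerivAt (fun s : ℝ => Real.log ((s - x) ^ 2 + 1) / 2 - Real.log ((s + x) ^ 2 + 1) / 2) _ s := h3.sub h4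
    have h6 : (fun s : ℝ => hh s x) = fun s : ℝ => Real.log ((s - x) ^ 2 + 1) / 2 - Real.log ((s + x) ^ 2 + 1) / 2 := by
      funext s
      unfold hh
      have h7 : (x - s) ^ 2 = (s - x) ^ 2 := by ring
      rw [h7, add_comm x s]
    rw [h6]
    refine h5.congr_deriv ?_
    have h7 : (x - s) ^ 2 = (s - x) ^ 2 := by ring
    rw [h7, add_comm x s, ← neg_div, neg_sub]
  have ck : Continuous fun z : ℝ × ℝ => (-((2 * b * Real.cos z.1 - z.2) / ((2 * b * Real.cos z.1 - z.2) ^ 2 + 1)) -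
        (2 * b * Real.cos z.1 + z.2) / ((2 * b * Real.cos z.1 + z.2) ^ 2 + 1)) * (z.1 * Real.sin z.1) := by
    refine Continuous.mul (Continuous.sub (Continuous.neg (Continuous.div (by fun_prop) (by fun_prop) fun z => ?_))
      (Continuous.div (by fun_prop) (by fun_prop) fun z => ?_)) (by fun_prop)
    · positivity
    · positivity
  have ck2 : ∀ x : ℝ, Continuous fun s : ℝ => (-((x - s) / ((x - s) ^ 2 + 1)) - (x + s) / ((x + s) ^ 2 + 1)) := by
    intro x
    refine Continuous.sub (Continuous.neg (Continuous.div (by fun_prop) (by fun_prop) fun z => ?_))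
      (Continuous.div (by fun_prop) (by fun_prop) fun z => ?_)
    · positivity
    · positivity
  have hk : ∀ x : ℝ, hh t x = ∫ s in (0 : ℝ)..t, (-((x - s) / ((x - s) ^ 2 + 1)) - (x + s) / ((x + s) ^ 2 + 1)) := by
    intro x
    rw [intervalIntegral.integral_eq_sub_of_hasDerivAt (fun s _ => dk x s) ((ck2 x).intervalIntegrable _ _)]
    have h3 : hh 0 x = 0 := by
      unfold hh
      rw [sub_zero, add_zero, sub_self]
    rw [h3, sub_zero]
  have e1 : (∫ φ in (0 : ℝ)..(Real.pi / 2), hh t (2 * b * Real.cos φ) * (φ * Real.sin φ)) =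
      ∫ φ in (0 : ℝ)..(Real.pi / 2), ∫ s in (0 : ℝ)..t,
        (-((2 * b * Real.cos φ - s) / ((2 * b * Real.cos φ - s) ^ 2 + 1)) -
        (2 * b * Real.cos φ + s) / ((2 * b * Real.cos φ + s) ^ 2 + 1)) * (φ * Real.sin φ) := by
    refine intervalIntegral.integral_congr fun φ _ => ?_
    rw [hk, intervalIntegral.integral_mul_const]
  have hint : MeasureTheory.IntegrableOn (Function.uncurry fun φ s : ℝ =>
      (-((2 * b * Real.cos φ - s) / ((2 * b * Real.cos φ - s) ^ 2 + 1)) -
        (2 * b * Real.cos φ + s) / ((2 * b * Real.cos φ + s) ^ 2 + 1)) * (φ * Real.sin φ))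
      (Set.uIoc 0 (Real.pi / 2) ×ˢ Set.uIoc 0 t) := by
    refine (ck.continuousOn.integrableOn_compact (isCompact_uIcc.prod isCompact_uIcc)).mono_set
      (Set.prod_mono Set.uIoc_subset_uIcc Set.uIoc_subset_uIcc)
  rw [e1, MeasureTheory.intervalIntegral_intervalIntegral_swap hint, ← intervalIntegral.integral_const_mul]
  refine intervalIntegral.integral_congr fun s _ => ?_
  exact inner_parts hb s

end Pool.Agent.Helper67.DP
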