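import Pool.Agent.Helper67.DP.L1
import Pool.Agent.Helper67.DP.L2

/-!
BLOCK DP-L3 (about 150 lines). Flatness: bounds for `HH b t`.

Proof in words.
* `int_log`: `∫_0^t log(s²+1)/2 ds = t log(t²+1)/2 - t + arctan t` (derivative).
* `HH_le`: `HH_eq`, `log_le_LL`, `int_log`: `HH b t ≤ t log(t²+1)/2 - t + arctan t - t log b`, and for `t > 0` `t log(t²+1)/2 = t log t + t log(1+1/t²)/2 ≤ t log t + t log(1+1/t) ≤ t log t + 1`, `arctan t ≤ π/2 ≤ 2`.
* `le_HH`, case `t ≤ 2b`: the function `s ↦ HH b s - (s log(s²+1)/2 - s + arctan s - s log b) + arcsin (s/2b)` is continuous on `[0, 2b]` and has the derivative `log b - LL b s + 1/√(4b²-s²) ≥ 0` on `(0, 2b)` (`LL_le`), so it is `≥ 0` (`monotoneOn_of_deriv_nonneg`); `arcsin ≤ π/2 ≤ 2`, `log(t²+1)/2 ≥ log t`.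
  Case `2b < t ≤ 2b + C`: for `s ≥ 2b ≥ 2`: `log(s²+1)/2 - LL b s ≥ log s - log(s+1+2b) ≥ -1` (`LL_le'`, `(s+1+2b)/s ≤ 5/2`, `log(5/2) ≤ 1`), so `HH b t ≥ HH b (2b) - C`; and with `f t = t log t - t - t log b`, `f t - f (2b) ≤ (t - 2b) log(t/b) ≤ C log(2 + C) ≤ C (1 + C)` (`f` is convex, `f' t = log(t/b)`).
  Total `2 + C + C + C² ≤ (2 + C)²`.
-/

set_option autoImplicit false

namespace Pool.Agent.Helper67.DP

open Pool.Agent.Helper1.DL

private theorem dF99 (b s : ℝ) : HasDerivAt
    (fun s : ℝ => s * (Real.log (s ^ 2 + 1) / 2) - s + Real.arctan s - s * Real.log b)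
    (Real.log (s ^ 2 + 1) / 2 - Real.log b) s := by
  have h0 : s ^ 2 + 1 ≠ 0 := by positivity
  have h1 : HasDerivAt (fun s : ℝ => s ^ 2 + 1) (2 * s) s := by
    have := ((hasDerivAt_id s).pow 2).add_const 1
    simpa using this
  have h2 := (h1.log h0).div_const 2
  have h3 := ((((hasDerivAt_id s).mul h2).sub (hasDerivAt_id s)).add (Real.hasDerivAt_arctan s)).sub
    ((hasDerivAt_id s).mul_const (Real.log b))
  refine h3.congr_deriv ?_
  simp only [id, one_mul]
  have h4 : (1 : ℝ) + s ^ 2 ≠ 0 := by positivity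
  have h5 : s * (2 * s / (s ^ 2 + 1) / 2) = 1 - 1 / (1 + s ^ 2) := by
    rw [add_comm (1 : ℝ) (s ^ 2)]
    field_simp
    ring
  rw [h5]
  ring

private theorem cL99 : Continuous fun s : ℝ => Real.log (s ^ 2 + 1) / 2 := by
  refine Continuous.div_const (Continuous.log (by fun_prop) fun x => ?_) 2
  positivity

private theorem int99 (b t : ℝ) : ∫ s in (0 : ℝ)..t, (Real.log (s ^ 2 + 1) / 2 - Real.log b) =
    t * (Real.log (t ^ 2 + 1) / 2) - t + Real.arctan t - t * Real.log b := by
  rw [intervalIntegral.integral_eq_sub_of_hasDerivAt (fun s _ => dF99 b s)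
    ((cL99.sub continuous_const).intervalIntegrable _ _)]
  simp

private theorem pi99 : Real.pi / 2 ≤ 2 := by
  have := Real.pi_le_four
  linarith

theorem HH_le {b t : ℝ} (hb : 0 < b) (ht : 0 ≤ t) :
    HH b t ≤ t * Real.log t - t - t * Real.log b + 3 := by
  have hc : Continuous fun s : ℝ => Real.log (s ^ 2 + 1) / 2 - LL b s := cL99.sub (LL_cont b)
  have h1 : HH b t ≤ ∫ s in (0 : ℝ)..t, (Real.log (s ^ 2 + 1) / 2 - Real.log b) := by
    rw [HH_eq hb t]
    refine intervalIntegral.integral_mono_on ht (hc.intervalIntegrable _ _)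
      ((cL99.sub continuous_const).intervalIntegrable _ _) fun s _ => ?_
    have := log_le_LL hb s
    linarith
  rw [int99] at h1
  have h2 : t * (Real.log (t ^ 2 + 1) / 2) ≤ t * Real.log t + 1 := by
    rcases ht.eq_or_lt with h | h
    · rw [← h]
      simp
    · have h3 : t ^ 2 + 1 ≤ (t * (1 + 1 / t)) ^ 2 := by
        have : t * (1 + 1 / t) = t + 1 := by field_simp
        rw [this]
        nlinarith
      have h4 : Real.log (t ^ 2 + 1) ≤ 2 * (Real.log t + Real.log (1 + 1 / t)) := by
        have h5 := Real.log_le_log (by positivity) h3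
        have h6 : (1 : ℝ) + 1 / t ≠ 0 := by positivity
        rw [Real.log_pow, Real.log_mul h.ne' h6] at h5
        exact_mod_cast h5
      have h7 : Real.log (1 + 1 / t) ≤ 1 / t := by
        have := Real.log_le_sub_one_of_pos (show (0 : ℝ) < 1 + 1 / t by positivity)
        linarith
      have h8 : Real.log (t ^ 2 + 1) / 2 ≤ Real.log t + 1 / t := by linarith
      calc t * (Real.log (t ^ 2 + 1) / 2) ≤ t * (Real.log t + 1 / t) :=
            mul_le_mul_of_nonneg_left h8 ht
        _ = t * Real.log t + 1 := by field_simp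
  have h3 := (Real.arctan_lt_pi_div_two t).le
  have h4 := pi99
  linarith

private theorem lo99 {t : ℝ} (ht : 0 ≤ t) : t * Real.log t ≤ t * (Real.log (t ^ 2 + 1) / 2) := by
  rcases ht.eq_or_lt with h | h
  · rw [← h]
    simp
  · apply mul_le_mul_of_nonneg_left _ ht
    have h1 := Real.log_le_log (show (0 : ℝ) < t ^ 2 by positivity)
      (show t ^ 2 ≤ t ^ 2 + 1 by linarith)
    rw [Real.log_pow] at h1
    push_cast at h1
    linarith

private theorem small99 {b t : ℝ} (hb : 1 ≤ b) (ht : 0 ≤ t) (ht2 : t ≤ 2 * b) :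
    t * Real.log t - t - t * Real.log b - 2 ≤ HH b t := by
  have hb0 : 0 < b := by linarith
  have hc : Continuous fun s : ℝ => Real.log (s ^ 2 + 1) / 2 - LL b s := cL99.sub (LL_cont b)
  set G : ℝ → ℝ := fun t => (∫ s in (0 : ℝ)..t, (Real.log (s ^ 2 + 1) / 2 - LL b s)) -
    (t * (Real.log (t ^ 2 + 1) / 2) - t + Real.arctan t - t * Real.log b) +
    Real.arcsin (t / (2 * b)) with hG
  have hI : ∀ t, HasDerivAt (fun t => ∫ s in (0 : ℝ)..t, (Real.log (s ^ 2 + 1) / 2 - LL b s))
      (Real.log (t ^ 2 + 1) / 2 - LL b t) t := fun t =>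
    (hc.integral_hasStrictDerivAt 0 t).hasDerivAt
  have hGc : Continuous G := by
    have c1 : Continuous fun t : ℝ => ∫ s in (0 : ℝ)..t, (Real.log (s ^ 2 + 1) / 2 - LL b s) :=
      continuous_iff_continuousAt.2 fun t => (hI t).continuousAt
    have c2 : Continuous fun t : ℝ => t * (Real.log (t ^ 2 + 1) / 2) - t + Real.arctan t -
        t * Real.log b := continuous_iff_continuousAt.2 fun t => (dF99 b t).continuousAt
    exact (c1.sub c2).add (Real.continuous_arcsin.comp (continuous_id.div_const _))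
  have hGd : ∀ s, 0 < s → s < 2 * b → HasDerivAt G (Real.log b - LL b s +
      1 / Real.sqrt (4 * b ^ 2 - s ^ 2)) s := by
    intro s hs0 hs
    have h1 : s / (2 * b) ≠ -1 := by
      have : 0 < s / (2 * b) := by positivity
      linarith
    have h2 : s / (2 * b) ≠ 1 := by
      have : s / (2 * b) < 1 := by rw [div_lt_one (by positivity)]; exact hs
      exact this.ne
    have h3 := (Real.hasDerivAt_arcsin h1 h2).comp s ((hasDerivAt_id s).div_const (2 * b))
    have h4 := ((hI s).sub (dF99 b s)).add h3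
    refine h4.congr_deriv ?_
    have h5 : 1 / Real.sqrt (1 - (s / (2 * b)) ^ 2) * (1 / (2 * b)) =
        1 / Real.sqrt (4 * b ^ 2 - s ^ 2) := by
      have h6 : 4 * b ^ 2 - s ^ 2 = (2 * b) ^ 2 * (1 - (s / (2 * b)) ^ 2) := by
        field_simp
        ring
      rw [h6, Real.sqrt_mul (by positivity), Real.sqrt_sq (by positivity), div_mul_div_comm, one_mul,
        mul_comm (Real.sqrt _)]
    rw [h5]
    ring
  have hmono : MonotoneOn G (Set.Icc 0 (2 * b)) := by
    refine monotoneOn_of_deriv_nonneg (convex_Icc _ _) hGc.continuousOn ?_ ?_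
    · intro s hs
      rw [interior_Icc] at hs
      exact (hGd s hs.1 hs.2).differentiableAt.differentiableWithinAt
    · intro s hs
      rw [interior_Icc] at hs
      rw [(hGd s hs.1 hs.2).deriv]
      have := LL_le hb0 hs.1.le hs.2
      linarith
  have h1 := hmono (Set.left_mem_Icc.2 (by positivity)) ⟨ht, ht2⟩ ht
  have h2 : G 0 = 0 := by
    simp [hG]
  rw [h2] at h1
  simp only [hG] at h1
  rw [← HH_eq hb0 t] at h1
  have h3 := Real.arcsin_le_pi_div_two (t / (2 * b))
  have h4 := pi99
  have h5 := lo99 ht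
  have h6 : 0 ≤ Real.arctan t := Real.arctan_nonneg.2 ht
  linarith

theorem le_HH {b t C : ℝ} (hb : 1 ≤ b) (hC : 0 ≤ C) (ht : 0 ≤ t) (ht2 : t ≤ 2 * b + C) :
    t * Real.log t - t - t * Real.log b - (2 + C) ^ 2 ≤ HH b t := by
  have hb0 : 0 < b := by linarith
  rcases le_total t (2 * b) with h | h
  · have h1 := small99 hb ht h
    nlinarith
  · have h1 := small99 hb (show (0 : ℝ) ≤ 2 * b by positivity) le_rfl
    have hc : Continuous fun s : ℝ => Real.log (s ^ 2 + 1) / 2 - LL b s := cL99.sub (LL_cont b)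
    have ht0 : 0 < t := by linarith
    have h2 : HH b (2 * b) - (t - 2 * b) ≤ HH b t := by
      rw [HH_eq hb0, HH_eq hb0, ← intervalIntegral.integral_add_adjacent_intervals
        (hc.intervalIntegrable 0 (2 * b)) (hc.intervalIntegrable (2 * b) t)]
      have h3 : ∫ s in (2 * b)..t, (-1 : ℝ) ≤ ∫ s in (2 * b)..t,
          (Real.log (s ^ 2 + 1) / 2 - LL b s) := by
        refine intervalIntegral.integral_mono_on h (continuous_const.intervalIntegrable _ _)
          (hc.intervalIntegrable _ _) fun s hs => ?_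
        have hs0 : 0 < s := by linarith [hs.1]
        have h4 := LL_le' hb0 hs0.le
        have h5 : Real.log s ≤ Real.log (s ^ 2 + 1) / 2 := by
          have h6 := Real.log_le_log (show (0 : ℝ) < s ^ 2 by positivity)
            (show s ^ 2 ≤ s ^ 2 + 1 by linarith)
          rw [Real.log_pow] at h6
          push_cast at h6
          linarith
        have h7 : Real.log (s + 1 + 2 * b) ≤ Real.log s + 1 := by
          have h8 : s + 1 + 2 * b ≤ s * Real.exp 1 := by
            have h9 := Real.exp_one_gt_d9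
            have h10 := hs.1
            nlinarith
          have h11 := Real.log_le_log (by positivity) h8
          rw [Real.log_mul hs0.ne' (Real.exp_pos 1).ne', Real.log_exp] at h11
          exact h11
        linarith
      rw [intervalIntegral.integral_const, smul_eq_mul] at h3
      linarith
    have h3 : t * Real.log t - t - t * Real.log b - (2 * b * Real.log (2 * b) - 2 * b -
        2 * b * Real.log b) ≤ C * (1 + C) := by
      have e1 : Real.log t - Real.log b = Real.log (t / b) := (Real.log_div ht0.ne' hb0.ne').symm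
      have e2 : Real.log (t / b) ≤ 1 + C := by
        have e3 : t / b ≤ 2 + C := by
          rw [div_le_iff₀ hb0]
          nlinarith
        have e4 := Real.log_le_sub_one_of_pos (show (0 : ℝ) < t / b by positivity)
        linarith
      have e5 : Real.log t - Real.log (2 * b) ≤ t / (2 * b) - 1 := by
        rw [← Real.log_div ht0.ne' (by positivity)]
        exact Real.log_le_sub_one_of_pos (by positivity)
      have e6 : 2 * b * (Real.log t - Real.log (2 * b)) ≤ t - 2 * b := by
        calc 2 * b * (Real.log t - Real.log (2 * b)) ≤ 2 * b * (t / (2 * b) - 1) :=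
              mul_le_mul_of_nonneg_left e5 (by positivity)
          _ = t - 2 * b := by field_simp
      have e7 : (t - 2 * b) * Real.log (t / b) ≤ (t - 2 * b) * (1 + C) :=
        mul_le_mul_of_nonneg_left e2 (by linarith)
      have e8 : (t - 2 * b) * (1 + C) ≤ C * (1 + C) :=
        mul_le_mul_of_nonneg_right (by linarith) (by linarith)
      rw [← e1] at e7
      linarith
    nlinarith

end Pool.Agent.Helper67.DP
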