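import Pool.Agent.Helper67.DP.Defs

/-!
BLOCK DP-L4 (about 150 lines; only Mathlib). Summation by parts: the sum of `hh t` over `A` against `HH b t`.

Proof in words.
* `hh_hasDeriv`: the derivative of `hh t` is `h1 t`; `hh t 0 = 0`.
* `abel`: for `0 ≤ a ≤ M`: `hh t a = ∫_0^a h1 t = ∫_0^M h1 t x * (if x ≤ a then 1 else 0) dx`; sum over `a ∈ A` (`cge A x = ∑_{a ∈ A} if x ≤ a then 1 else 0`).
* `int_abs_h1_le`: `|h1 t x| ≤ |x-t|/((x-t)²+1) + |x+t|/((x+t)²+1)`, `∫_{-R}^{R} |u|/(u²+1) du = log(R²+1)`; with `R = M + t` both `[-t, M-t]` and `[t, M+t]` are contained in `[-R, R]`.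
* `NN_zero`: `NN b x = 0` for `x ≥ 2b` (`arccos = 0`, `√` of a number `≤ 0`).
* `abel_le`: with `M = 2√n + C` (`C ≥ 0` by `disc`): `HH √n t = ∫_0^{M} h1 t x * NN √n x dx` (`NN_zero`), so the difference is `∫_0^M h1 t x (cge A x - NN √n x) dx`, at most `C ∫_0^M |h1 t|`.
-/

set_option autoImplicit false

namespace Pool.Agent.Helper67.DP

open Pool.Agent.Helper1.DL

private theorem den_pos_h4 (y : ℝ) : 0 < y ^ 2 + 1 := by positivity

private theorem log_deriv_h4 (c x : ℝ) :
    HasDerivAt (fun x : ℝ => Real.log ((x + c) ^ 2 + 1) / 2) ((x + c) / ((x + c) ^ 2 + 1)) x := by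
  have h1 : HasDerivAt (fun x : ℝ => (x + c) ^ 2 + 1) (2 * (x + c)) x := by
    have h2 := (((hasDerivAt_id x).add_const c).pow 2).add_const 1
    simpa using h2
  have h3 := (h1.log (den_pos_h4 (x + c)).ne').div_const 2
  refine h3.congr_deriv ?_
  have := (den_pos_h4 (x + c)).ne'
  field_simp

theorem hh_hasDeriv (t x : ℝ) : HasDerivAt (hh t) (h1 t x) x := by
  have h1 := log_deriv_h4 (-t) x
  have h2 := log_deriv_h4 t x
  have h3 := h1.sub h2
  exact h3

theorem h1_cont (t : ℝ) : Continuous (h1 t) := by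
  unfold h1
  refine Continuous.sub ?_ ?_
  · exact (by fun_prop : Continuous fun x : ℝ => x - t).div (by fun_prop) fun x => (den_pos_h4 (x - t)).ne'
  · exact (by fun_prop : Continuous fun x : ℝ => x + t).div (by fun_prop) fun x => (den_pos_h4 (x + t)).ne'

/-- the step function of one element -/
private noncomputable def st_h4 (a : ℕ) (x : ℝ) : ℝ := if x ≤ (a : ℝ) then 1 else 0

private theorem st_anti_h4 (a : ℕ) : Antitone (st_h4 a) := by
  intro x y hxy
  unfold st_h4
  by_cases h : y ≤ (a : ℝ)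
  · rw [if_pos h, if_pos (hxy.trans h)]
  · rw [if_neg h]
    split_ifs <;> norm_num

private theorem cge_sum_h4 (A : Finset ℕ) (x : ℝ) : cge A x = ∑ a ∈ A, st_h4 a x := by
  unfold cge st_h4
  rw [Finset.card_filter]
  push_cast
  rfl

private theorem st_int_h4 (t : ℝ) (a : ℕ) (u v : ℝ) :
    IntervalIntegrable (fun x => h1 t x * st_h4 a x) MeasureTheory.volume u v :=
  ((st_anti_h4 a).intervalIntegrable (a := u) (b := v)).continuousOn_mul (h1_cont t).continuousOn

private theorem cge_int_h4 (t : ℝ) (A : Finset ℕ) (u v : ℝ) :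
    IntervalIntegrable (fun x => h1 t x * cge A x) MeasureTheory.volume u v := by
  have h2 : (fun x => h1 t x * cge A x) = ∑ a ∈ A, fun x => h1 t x * st_h4 a x := by
    funext x
    rw [cge_sum_h4, Finset.mul_sum, Finset.sum_apply]
  rw [h2]
  exact IntervalIntegrable.sum A fun a _ => st_int_h4 t a u v

private theorem one_h4 {a : ℕ} {M : ℝ} (hM : (a : ℝ) ≤ M) (t : ℝ) :
    ∫ x in (0 : ℝ)..M, h1 t x * st_h4 a x = hh t (a : ℝ) := by
  rw [← intervalIntegral.integral_add_adjacent_intervals (st_int_h4 t a 0 a) (st_int_h4 t a a M)]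
  have e1 : ∫ x in (0 : ℝ)..(a : ℝ), h1 t x * st_h4 a x = ∫ x in (0 : ℝ)..(a : ℝ), h1 t x := by
    refine intervalIntegral.integral_congr_ae (Filter.Eventually.of_forall fun x hx => ?_)
    rw [Set.uIoc_of_le (Nat.cast_nonneg a)] at hx
    unfold st_h4
    rw [if_pos hx.2, mul_one]
  have e2 : ∫ x in (a : ℝ)..M, h1 t x * st_h4 a x = ∫ x in (a : ℝ)..M, (0 : ℝ) := by
    refine intervalIntegral.integral_congr_ae (Filter.Eventually.of_forall fun x hx => ?_)
    rw [Set.uIoc_of_le hM] at hx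
    unfold st_h4
    rw [if_neg (not_le.2 hx.1), mul_zero]
  rw [e1, e2, intervalIntegral.integral_zero, add_zero,
    intervalIntegral.integral_eq_sub_of_hasDerivAt (fun x _ => hh_hasDeriv t x)
      ((h1_cont t).intervalIntegrable _ _)]
  have h0 : hh t 0 = 0 := by
    unfold hh
    simp
  rw [h0, sub_zero]

theorem abel {A : Finset ℕ} {M : ℝ} (hM : ∀ a ∈ A, (a : ℝ) ≤ M) (t : ℝ) :
    ∑ a ∈ A, hh t (a : ℝ) = ∫ x in (0 : ℝ)..M, h1 t x * cge A x := by
  have e1 : ∀ x : ℝ, h1 t x * cge A x = ∑ a ∈ A, h1 t x * st_h4 a x := by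
    intro x
    rw [cge_sum_h4, Finset.mul_sum]
  simp only [e1]
  rw [intervalIntegral.integral_finsetSum fun a _ => st_int_h4 t a 0 M]
  exact Finset.sum_congr rfl fun a ha => (one_h4 (hM a ha) t).symm

private noncomputable def k_h4 (u : ℝ) : ℝ := |u| / (u ^ 2 + 1)

private theorem k_cont_h4 : Continuous k_h4 := by
  unfold k_h4
  exact continuous_abs.div (by fun_prop) fun u => (den_pos_h4 u).ne'

private theorem k_nonneg_h4 (u : ℝ) : 0 ≤ k_h4 u := by
  unfold k_h4
  positivity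

private theorem k_half_h4 {R : ℝ} (hR : 0 ≤ R) : ∫ u in (0 : ℝ)..R, k_h4 u = Real.log (R ^ 2 + 1) / 2 := by
  have e1 : ∫ u in (0 : ℝ)..R, k_h4 u = ∫ u in (0 : ℝ)..R, (u + 0) / ((u + 0) ^ 2 + 1) := by
    refine intervalIntegral.integral_congr_ae (Filter.Eventually.of_forall fun x hx => ?_)
    rw [Set.uIoc_of_le hR] at hx
    unfold k_h4
    rw [abs_of_pos hx.1, add_zero]
  rw [e1, intervalIntegral.integral_eq_sub_of_hasDerivAt (fun x _ => log_deriv_h4 0 x)]
  · simp
  · apply Continuous.intervalIntegrable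
    exact (by fun_prop : Continuous fun u : ℝ => u + 0).div (by fun_prop) fun u => (den_pos_h4 (u + 0)).ne'

private theorem k_full_h4 {R : ℝ} (hR : 0 ≤ R) : ∫ u in (-R)..R, k_h4 u = Real.log (R ^ 2 + 1) := by
  rw [← intervalIntegral.integral_add_adjacent_intervals (k_cont_h4.intervalIntegrable (-R) 0)
    (k_cont_h4.intervalIntegrable 0 R), k_half_h4 hR]
  have e1 : ∫ u in (-R)..(0 : ℝ), k_h4 u = ∫ u in (0 : ℝ)..R, k_h4 (-u) := by
    rw [intervalIntegral.integral_comp_neg, neg_zero]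
  have e2 : (fun u => k_h4 (-u)) = k_h4 := by
    funext u
    unfold k_h4
    rw [abs_neg, neg_sq]
  rw [e1, e2, k_half_h4 hR]
  ring

private theorem k_le_h4 {R a b : ℝ} (hR : 0 ≤ R) (ha : -R ≤ a) (hab : a ≤ b) (hb : b ≤ R) :
    ∫ u in a..b, k_h4 u ≤ Real.log (R ^ 2 + 1) := by
  rw [← k_full_h4 hR]
  exact intervalIntegral.integral_mono_interval ha hab hb
    (Filter.Eventually.of_forall k_nonneg_h4) (k_cont_h4.intervalIntegrable _ _)

theorem int_abs_h1_le {t M : ℝ} (ht : 0 ≤ t) (hM : 0 ≤ M) :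
    ∫ x in (0 : ℝ)..M, |h1 t x| ≤ 2 * Real.log ((M + t) ^ 2 + 1) := by
  have hR : 0 ≤ M + t := by linarith
  have hle : ∀ x : ℝ, |h1 t x| ≤ k_h4 (x - t) + k_h4 (x + t) := by
    intro x
    unfold h1 k_h4
    refine (abs_sub _ _).trans ?_
    rw [abs_div, abs_div, abs_of_pos (den_pos_h4 (x - t)), abs_of_pos (den_pos_h4 (x + t))]
  have hc1 : Continuous fun x : ℝ => k_h4 (x - t) := k_cont_h4.comp (by fun_prop)
  have hc2 : Continuous fun x : ℝ => k_h4 (x + t) := k_cont_h4.comp (by fun_prop)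
  have h1' : ∫ x in (0 : ℝ)..M, |h1 t x| ≤ ∫ x in (0 : ℝ)..M, (k_h4 (x - t) + k_h4 (x + t)) :=
    intervalIntegral.integral_mono_on hM ((h1_cont t).abs.intervalIntegrable _ _)
      ((hc1.add hc2).intervalIntegrable _ _) fun x _ => hle x
  rw [intervalIntegral.integral_add (hc1.intervalIntegrable _ _) (hc2.intervalIntegrable _ _),
    intervalIntegral.integral_comp_sub_right, intervalIntegral.integral_comp_add_right] at h1'
  have h2 := k_le_h4 (R := M + t) (a := 0 - t) (b := M - t) hR (by linarith) (by linarith) (by linarith)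
  have h3 := k_le_h4 (R := M + t) (a := 0 + t) (b := M + t) hR (by linarith) (by linarith) (by linarith)
  linarith

theorem NN_zero {b x : ℝ} (hb : 0 < b) (hx : 2 * b ≤ x) : NN b x = 0 := by
  have h1 : 1 ≤ x / (2 * b) := by
    rw [le_div_iff₀ (by positivity)]
    linarith
  unfold NN
  rw [Real.arccos_eq_zero.2 h1, Real.sqrt_eq_zero_of_nonpos (by nlinarith)]
  ring

private theorem NN_cont_h4 (b : ℝ) : Continuous (NN b) := by
  unfold NN
  have h1 : Continuous fun x : ℝ => x / (2 * b) := continuous_id.div_const _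
  exact continuous_const.mul ((Real.continuous_sqrt.comp (continuous_const.sub (h1.pow 2))).sub
    (h1.mul (Real.continuous_arccos.comp h1)))

theorem abel_le {C : ℝ} {n : ℕ} (hn : 0 < n) {A : Finset ℕ} (hg : Good C n A) {t : ℝ} (ht : 0 ≤ t) :
    |∑ a ∈ A, hh t (a : ℝ) - HH (Real.sqrt n) t| ≤
      2 * C * Real.log ((2 * Real.sqrt n + C + t) ^ 2 + 1) := by
  have hb : 0 < Real.sqrt n := Real.sqrt_pos.2 (by exact_mod_cast hn)
  have hC : 0 ≤ C := (abs_nonneg _).trans (hg.disc 0 le_rfl)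
  have hM : 0 ≤ 2 * Real.sqrt n + C := by positivity
  have hi1 : ∀ u v : ℝ, IntervalIntegrable (fun x => h1 t x * NN (Real.sqrt n) x)
      MeasureTheory.volume u v := fun u v =>
    ((h1_cont t).mul (NN_cont_h4 _)).intervalIntegrable _ _
  have hHH : HH (Real.sqrt n) t = ∫ x in (0 : ℝ)..(2 * Real.sqrt n + C), h1 t x * NN (Real.sqrt n) x := by
    unfold HH
    rw [← intervalIntegral.integral_add_adjacent_intervals (hi1 0 (2 * Real.sqrt n))
      (hi1 (2 * Real.sqrt n) (2 * Real.sqrt n + C))]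
    have e1 : ∫ x in (2 * Real.sqrt n)..(2 * Real.sqrt n + C), h1 t x * NN (Real.sqrt n) x =
        ∫ x in (2 * Real.sqrt n)..(2 * Real.sqrt n + C), (0 : ℝ) := by
      refine intervalIntegral.integral_congr_ae (Filter.Eventually.of_forall fun x hx => ?_)
      rw [Set.uIoc_of_le (by linarith)] at hx
      rw [NN_zero hb hx.1.le, mul_zero]
    rw [e1, intervalIntegral.integral_zero, add_zero]
  have hab := abel (M := 2 * Real.sqrt n + C) hg.top t
  have hi2 := cge_int_h4 t A 0 (2 * Real.sqrt n + C)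
  rw [hab, hHH, ← intervalIntegral.integral_sub hi2 (hi1 _ _)]
  have hb1 : |∫ x in (0 : ℝ)..(2 * Real.sqrt n + C), (h1 t x * cge A x - h1 t x * NN (Real.sqrt n) x)| ≤
      ∫ x in (0 : ℝ)..(2 * Real.sqrt n + C), |h1 t x| * C := by
    refine (intervalIntegral.abs_integral_le_integral_abs hM).trans ?_
    refine intervalIntegral.integral_mono_on hM (hi2.sub (hi1 _ _)).abs
      (((h1_cont t).abs.mul continuous_const).intervalIntegrable _ _) fun x hx => ?_
    rw [← mul_sub, abs_mul]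
    exact mul_le_mul_of_nonneg_left (hg.disc x hx.1) (abs_nonneg _)
  rw [intervalIntegral.integral_mul_const] at hb1
  have h3 := int_abs_h1_le ht hM
  have h4 := mul_le_mul_of_nonneg_right h3 hC
  refine hb1.trans (h4.trans (le_of_eq ?_))
  ring

end Pool.Agent.Helper67.DP
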