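import Pool.Agent.Helper67.DP.Defs

/-!
BLOCK DP-L5 (about 150 lines; only Mathlib). The logarithm of `∏ |l - a| / ∏ (l + a + 1)` against the sum of `hh l`; Stirling.

Proof in words.
* `hh l a = log((a-l)²+1)/2 - log((a+l)²+1)/2`; the first part is `0` for `a = l`. So the difference in `sum_log` is
  `-∑_{a ∈ A, a ≠ l} log(1 + 1/(a-l)²)/2 - ∑_{a ∈ A} (log(l+a+1) - log((a+l)²+1)/2)`.
  First sum: between `0` and `∑_{a ≠ l} 1/(2 (a-l)²) ≤ ∑_{k=1}^{..} 1/k² ≤ 2` (each `k = |a - l|` occurs at most twice; `∑_{k=1}^K 1/k² ≤ 2 - 1/K`, e.g. `sum_Ioc_inv_sq_le`).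
  Second sum, with `s = a + l`: `0 ≤ log(s+1) - log(s²+1)/2 = log(1 + 2s/(s²+1))/2 ≤ s/(s²+1) ≤ 2/(s+1) ≤ 2/(a+1)`, and `∑_{a ≤ M} 1/(a+1) ≤ 1 + log(M+1)` (`harmonic_le_one_add_log`).
* `log_fac_ge`: `l log l - l ≤ log l!` (`Stirling.le_log_factorial_stirling`, or induction); `log_fac_le`: `log l! ≤ l log l - l + 1 + log l` for `l ≥ 1` by induction (`(l+1) (log(l+1) - log l) ≥ 1`); for `l = 0` both sides are `0 ≤ 1`.
-/

set_option autoImplicit false

namespace Pool.Agent.Helper67.DP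

private theorem sq_range_h5 (n : ℕ) :
    ∑ k ∈ Finset.range (n + 1), 1 / (((k : ℝ) + 1) ^ 2) ≤ 2 - 1 / ((n : ℝ) + 1) := by
  induction n with
  | zero => norm_num
  | succ n ih =>
    rw [Finset.sum_range_succ]
    have h1 : (0 : ℝ) < (n : ℝ) + 1 := by positivity
    have h2 : (0 : ℝ) < (n : ℝ) + 2 := by positivity
    have h3 : 1 / (((n + 1 : ℕ) : ℝ) + 1) ^ 2 ≤ 1 / ((n : ℝ) + 1) - 1 / ((n : ℝ) + 2) := by
      push_cast
      rw [show (n : ℝ) + 1 + 1 = (n : ℝ) + 2 by ring, div_sub_div _ _ h1.ne' h2.ne',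
        div_le_div_iff₀ (by positivity) (by positivity)]
      nlinarith
    have h4 : (((n + 1 : ℕ) : ℝ) + 1) = (n : ℝ) + 2 := by push_cast; ring
    rw [h4] at h3 ⊢
    linarith

private theorem sq_fin_h5 (B : Finset ℕ) : ∑ k ∈ B, 1 / (((k : ℝ) + 1) ^ 2) ≤ 2 := by
  have h1 : B ⊆ Finset.range (B.sup id + 1) := by
    intro k hk
    rw [Finset.mem_range, Nat.lt_succ_iff]
    exact Finset.le_sup (f := id) hk
  have h2 : ∑ k ∈ B, 1 / (((k : ℝ) + 1) ^ 2) ≤ ∑ k ∈ Finset.range (B.sup id + 1), 1 / (((k : ℝ) + 1) ^ 2) :=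
    Finset.sum_le_sum_of_subset_of_nonneg h1 (fun _ _ _ => by positivity)
  have h3 := sq_range_h5 (B.sup id)
  have h4 : 0 ≤ 1 / (((B.sup id : ℕ) : ℝ) + 1) := by positivity
  linarith

private theorem sq_inj_h5 (B : Finset ℕ) (f : ℕ → ℕ) (hf : Set.InjOn f B) (g : ℕ → ℝ)
    (hg : ∀ a ∈ B, g a = 1 / (((f a : ℕ) : ℝ) + 1) ^ 2) : ∑ a ∈ B, g a ≤ 2 := by
  rw [Finset.sum_congr rfl hg, ← Finset.sum_image (f := fun k : ℕ => 1 / (((k : ℕ) : ℝ) + 1) ^ 2) hf]
  exact sq_fin_h5 _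

private theorem sq_dist_h5 (A : Finset ℕ) (l : ℕ) :
    ∑ a ∈ A.erase l, 1 / (((a : ℝ) - l) ^ 2) ≤ 4 := by
  rw [← Finset.sum_filter_add_sum_filter_not (A.erase l) (fun a => a < l)]
  have h1 : ∑ a ∈ (A.erase l).filter (fun a => a < l), 1 / (((a : ℝ) - l) ^ 2) ≤ 2 := by
    apply sq_inj_h5 _ (fun a => l - 1 - a)
    · intro a ha b hb hab
      simp only [Finset.coe_filter, Set.mem_ofPred_eq, Finset.mem_erase] at ha hb
      simp only at hab
      omega
    · intro a ha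
      rw [Finset.mem_filter] at ha
      have h2 : ((l - 1 - a : ℕ) : ℝ) + 1 = (l : ℝ) - a := by
        have h3 : (l - 1 - a) + 1 + a = l := by omega
        have h4 : (((l - 1 - a) + 1 + a : ℕ) : ℝ) = (l : ℝ) := by rw [h3]
        push_cast at h4
        linarith
      rw [h2]
      congr 1
      ring
  have h2 : ∑ a ∈ (A.erase l).filter (fun a => ¬ a < l), 1 / (((a : ℝ) - l) ^ 2) ≤ 2 := by
    apply sq_inj_h5 _ (fun a => a - l - 1)
    · intro a ha b hb hab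
      simp only [Finset.coe_filter, Set.mem_ofPred_eq, Finset.mem_erase] at ha hb
      simp only at hab
      omega
    · intro a ha
      rw [Finset.mem_filter, Finset.mem_erase] at ha
      have h2 : ((a - l - 1 : ℕ) : ℝ) + 1 = (a : ℝ) - l := by
        have h3 : (a - l - 1) + 1 + l = a := by omega
        have h4 : (((a - l - 1) + 1 + l : ℕ) : ℝ) = (a : ℝ) := by rw [h3]
        push_cast at h4
        linarith
      rw [h2]
  linarith

private theorem log_one_h5 {x : ℝ} (hx : 0 ≤ x) : Real.log (1 + x) ≤ x := by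
  have := Real.log_le_sub_one_of_pos (show (0 : ℝ) < 1 + x by linarith)
  linarith

private theorem first_h5 {a l : ℕ} (h : a ≠ l) :
    0 ≤ Real.log (((a : ℝ) - l) ^ 2 + 1) / 2 - Real.log |(l : ℝ) - a| ∧
      Real.log (((a : ℝ) - l) ^ 2 + 1) / 2 - Real.log |(l : ℝ) - a| ≤ 1 / (((a : ℝ) - l) ^ 2) / 2 := by
  have hne : ((a : ℝ) - l) ≠ 0 := by
    intro h0
    apply h
    have : (a : ℝ) = l := by linarith
    exact_mod_cast this
  have hpos : 0 < ((a : ℝ) - l) ^ 2 := by positivity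
  have h1 : Real.log |(l : ℝ) - a| = Real.log (((a : ℝ) - l) ^ 2) / 2 := by
    rw [Real.log_pow, abs_sub_comm, Real.log_abs]
    push_cast
    ring
  have h2 : Real.log (((a : ℝ) - l) ^ 2 + 1) = Real.log (((a : ℝ) - l) ^ 2) +
      Real.log (1 + 1 / (((a : ℝ) - l) ^ 2)) := by
    rw [← Real.log_mul hpos.ne' (by positivity)]
    congr 1
    field_simp
  rw [h1, h2]
  have h3 : 0 ≤ 1 / (((a : ℝ) - l) ^ 2) := by positivity
  have h4 : 0 ≤ Real.log (1 + 1 / (((a : ℝ) - l) ^ 2)) := Real.log_nonneg (by linarith)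
  have h5 := log_one_h5 h3
  constructor <;> linarith

private theorem second_h5 (a l : ℕ) :
    0 ≤ Real.log ((l : ℝ) + a + 1) - Real.log (((a : ℝ) + l) ^ 2 + 1) / 2 ∧
      Real.log ((l : ℝ) + a + 1) - Real.log (((a : ℝ) + l) ^ 2 + 1) / 2 ≤ 2 * (1 / ((a : ℝ) + 1)) := by
  obtain ⟨s, hs⟩ : ∃ s : ℝ, s = (a : ℝ) + l := ⟨_, rfl⟩
  have hs0 : 0 ≤ s := by rw [hs]; positivity
  have has : (a : ℝ) ≤ s := by
    rw [hs]
    have : (0 : ℝ) ≤ l := by positivity
    linarith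
  have e1 : (l : ℝ) + a + 1 = s + 1 := by rw [hs]; ring
  rw [e1, ← hs]
  have hp : 0 < s ^ 2 + 1 := by positivity
  have h1 : Real.log (s + 1) = Real.log ((s + 1) ^ 2) / 2 := by
    rw [Real.log_pow]
    push_cast
    ring
  have h2 : Real.log ((s + 1) ^ 2) = Real.log (s ^ 2 + 1) + Real.log (1 + 2 * s / (s ^ 2 + 1)) := by
    rw [← Real.log_mul hp.ne' (by positivity)]
    congr 1
    field_simp
    ring
  rw [h1, h2]
  have h3 : 0 ≤ 2 * s / (s ^ 2 + 1) := by positivity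
  have h4 : 0 ≤ Real.log (1 + 2 * s / (s ^ 2 + 1)) := Real.log_nonneg (by linarith)
  have h5 := log_one_h5 h3
  have h6 : 2 * s / (s ^ 2 + 1) ≤ 4 * (1 / ((a : ℝ) + 1)) := by
    have ha0 : (0 : ℝ) ≤ a := by positivity
    rw [mul_one_div, div_le_div_iff₀ hp (by positivity)]
    nlinarith [mul_le_mul_of_nonneg_left has hs0, sq_nonneg (s - 1)]
  constructor <;> linarith

theorem sum_log {A : Finset ℕ} {M : ℕ} (hM : ∀ a ∈ A, a ≤ M) (l : ℕ) :
    |(∑ a ∈ A.erase l, Real.log |(l : ℝ) - a|) - (∑ a ∈ A, Real.log ((l : ℝ) + a + 1)) -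
      ∑ a ∈ A, hh (l : ℝ) (a : ℝ)| ≤ 4 + 2 * Real.log ((M : ℝ) + 1) := by
  have e1 : ∑ a ∈ A, hh (l : ℝ) (a : ℝ) = ∑ a ∈ A.erase l, Real.log (((a : ℝ) - l) ^ 2 + 1) / 2 -
      ∑ a ∈ A, Real.log (((a : ℝ) + l) ^ 2 + 1) / 2 := by
    unfold hh
    rw [Finset.sum_sub_distrib]
    congr 1
    symm
    apply Finset.sum_erase
    simp
  have e2 : (∑ a ∈ A.erase l, Real.log |(l : ℝ) - a|) - (∑ a ∈ A, Real.log ((l : ℝ) + a + 1)) -
      ∑ a ∈ A, hh (l : ℝ) (a : ℝ) =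
      -((∑ a ∈ A.erase l, (Real.log (((a : ℝ) - l) ^ 2 + 1) / 2 - Real.log |(l : ℝ) - a|)) +
        ∑ a ∈ A, (Real.log ((l : ℝ) + a + 1) - Real.log (((a : ℝ) + l) ^ 2 + 1) / 2)) := by
    rw [e1, Finset.sum_sub_distrib, Finset.sum_sub_distrib]
    ring
  have p1 : 0 ≤ ∑ a ∈ A.erase l, (Real.log (((a : ℝ) - l) ^ 2 + 1) / 2 - Real.log |(l : ℝ) - a|) :=
    Finset.sum_nonneg fun a ha => (first_h5 (Finset.ne_of_mem_erase ha)).1
  have p2 : 0 ≤ ∑ a ∈ A, (Real.log ((l : ℝ) + a + 1) - Real.log (((a : ℝ) + l) ^ 2 + 1) / 2) :=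
    Finset.sum_nonneg fun a _ => (second_h5 a l).1
  have q1 : ∑ a ∈ A.erase l, (Real.log (((a : ℝ) - l) ^ 2 + 1) / 2 - Real.log |(l : ℝ) - a|) ≤ 2 := by
    have h1 : ∑ a ∈ A.erase l, (Real.log (((a : ℝ) - l) ^ 2 + 1) / 2 - Real.log |(l : ℝ) - a|) ≤
        ∑ a ∈ A.erase l, 1 / (((a : ℝ) - l) ^ 2) / 2 :=
      Finset.sum_le_sum fun a ha => (first_h5 (Finset.ne_of_mem_erase ha)).2
    rw [← Finset.sum_div] at h1
    have h2 := sq_dist_h5 A l
    linarith
  have q2 : ∑ a ∈ A, (Real.log ((l : ℝ) + a + 1) - Real.log (((a : ℝ) + l) ^ 2 + 1) / 2) ≤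
      2 + 2 * Real.log ((M : ℝ) + 1) := by
    have h1 : ∑ a ∈ A, (Real.log ((l : ℝ) + a + 1) - Real.log (((a : ℝ) + l) ^ 2 + 1) / 2) ≤
        ∑ a ∈ A, 2 * (1 / ((a : ℝ) + 1)) :=
      Finset.sum_le_sum fun a _ => (second_h5 a l).2
    have h2 : ∑ a ∈ A, 2 * (1 / ((a : ℝ) + 1)) ≤ ∑ a ∈ Finset.range (M + 1), 2 * (1 / ((a : ℝ) + 1)) := by
      apply Finset.sum_le_sum_of_subset_of_nonneg
      · intro a ha
        rw [Finset.mem_range, Nat.lt_succ_iff]
        exact hM a ha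
      · intro _ _ _
        positivity
    rw [← Finset.mul_sum, ← Finset.mul_sum] at h2
    rw [← Finset.mul_sum] at h1
    have h3 := harmonic_le_one_add_log (M + 1)
    have h4 : ((harmonic (M + 1) : ℚ) : ℝ) = ∑ a ∈ Finset.range (M + 1), (1 / ((a : ℝ) + 1)) := by
      unfold harmonic
      push_cast
      apply Finset.sum_congr rfl
      intro a _
      rw [one_div]
    rw [h4] at h3
    push_cast at h3
    linarith
  rw [e2, abs_neg, abs_of_nonneg (add_nonneg p1 p2)]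
  linarith

theorem log_fac_ge (l : ℕ) : (l : ℝ) * Real.log l - l ≤ Real.log (l.factorial : ℝ) := by
  rcases Nat.eq_zero_or_pos l with rfl | hl
  · simp
  · have h1 := Stirling.le_log_factorial_stirling hl.ne'
    have h2 : 0 ≤ Real.log (l : ℝ) := Real.log_natCast_nonneg l
    have h3 : 0 ≤ Real.log (2 * Real.pi) := Real.log_nonneg (by nlinarith [Real.pi_gt_three])
    linarith

theorem log_fac_le (l : ℕ) : Real.log (l.factorial : ℝ) ≤ (l : ℝ) * Real.log l - l + 1 + Real.log l := by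
  induction l with
  | zero => simp
  | succ l ih =>
    rcases Nat.eq_zero_or_pos l with rfl | hl
    · simp
    · have hl0 : (0 : ℝ) < l := by exact_mod_cast hl
      rw [Nat.factorial_succ]
      push_cast
      rw [Real.log_mul (by positivity) (by positivity)]
      have h1 : 1 / ((l : ℝ) + 1) ≤ Real.log ((l : ℝ) + 1) - Real.log l := by
        rw [← Real.log_div (by positivity) hl0.ne']
        have h2 := Real.one_sub_inv_le_log_of_pos (show 0 < ((l : ℝ) + 1) / l by positivity)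
        have h3 : 1 - (((l : ℝ) + 1) / l)⁻¹ = 1 / ((l : ℝ) + 1) := by
          field_simp
          ring
        rw [h3] at h2
        exact h2
      have h4 : 1 ≤ ((l : ℝ) + 1) * (Real.log ((l : ℝ) + 1) - Real.log l) := by
        have h5 := mul_le_mul_of_nonneg_left h1 (show (0 : ℝ) ≤ (l : ℝ) + 1 by positivity)
        rw [mul_one_div, div_self (by positivity)] at h5
        exact h5
      nlinarith

end Pool.Agent.Helper67.DP
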