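import Pool.Agent.Helper67.DP.L3
import Pool.Agent.Helper67.DP.L4
import Pool.Agent.Helper67.DP.L5

/-!
BLOCK DP-L6 (about 150 lines). The potential `FF √n A l` of a good set is at most polynomial off `A` and at least inverse polynomial on `A`.

Proof in words. `b = √n`, `M = 2 b + C` (`C ≥ 0` by `disc`).
* `log FF = l log b - log l! + ∑_{a ∈ A, a ≠ l} log |l - a| - ∑_{a ∈ A} log(l + a + 1)` (all factors are positive; `log_prod`).
* `FF_far`: `|l - a| ≤ l + a + 1`, so `FF b A l ≤ b^l / l!` for `l ∉ A`, and `l! ≥ (l/e)^l` (`log_fac_ge`), so `FF ≤ (e b / l)^l ≤ (e/8)^l ≤ (1/2)^l` for `l ≥ 8 b`.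
* `FF_le`: for `l ≥ 8 b` by `FF_far`; for `l < 8 b`: `log FF ≤ l log b - (l log l - l) + HH b l + 2 C log((2b + C + l)²+1) + 4 + 2 log(M+1)` (`log_fac_ge`, `sum_log`, `abel_le`), and `HH b l ≤ l log l - l - l log b + 3`; the sum is `≤ 7 + 2 C log((10 b + C)² + 1) + 2 log(M + 2) ≤ (4 C + 9) log n` for `n ≥ n₀(C)`.
* `le_FF`: for `a ∈ A`, `a ≤ 2 b + C`: the same with `log_fac_le` and `le_HH`.
-/

set_option autoImplicit false

namespace Pool.Agent.Helper67.DP

open Pool.Agent.Helper1.DL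

private theorem num_pos24 (A : Finset ℕ) (l : ℕ) : 0 < ∏ a ∈ A.erase l, |(l : ℝ) - a| := by
  refine Finset.prod_pos fun a ha => ?_
  rw [abs_pos, sub_ne_zero]
  exact_mod_cast (Finset.ne_of_mem_erase ha).symm

private theorem den_pos24 (A : Finset ℕ) (l : ℕ) : 0 < ∏ a ∈ A, ((l : ℝ) + a + 1) :=
  Finset.prod_pos fun a _ => by positivity

private theorem logFF24 {b : ℝ} (hb : 0 < b) (A : Finset ℕ) (l : ℕ) :
    Real.log (FF b A l) = (l : ℝ) * Real.log b - Real.log (l.factorial : ℝ) +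
      ((∑ a ∈ A.erase l, Real.log |(l : ℝ) - a|) - ∑ a ∈ A, Real.log ((l : ℝ) + a + 1)) := by
  have h1 : (0 : ℝ) < b ^ l / (l.factorial : ℝ) := by positivity
  have h2 := num_pos24 A l
  have h3 := den_pos24 A l
  unfold FF
  rw [Real.log_div (mul_pos h1 h2).ne' h3.ne', Real.log_mul h1.ne' h2.ne',
    Real.log_div (by positivity) (by positivity), Real.log_pow, Real.log_prod, Real.log_prod]
  · ring
  · intro a _
    positivity
  · intro a ha
    rw [abs_ne_zero, sub_ne_zero]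
    exact_mod_cast (Finset.ne_of_mem_erase ha).symm

/-- the constants -/
private theorem cst24 {C : ℝ} (hC : 0 ≤ C) {n : ℕ} (hn : 3 ≤ n) {A : Finset ℕ} (hg : Good C n A) :
    1 ≤ Real.sqrt n ∧ 1 ≤ Real.log n ∧
    (∀ t : ℝ, 0 ≤ t → t ≤ 8 * Real.sqrt n + C → Real.log ((2 * Real.sqrt n + C + t) ^ 2 + 1) ≤
      Real.log ((10 + 2 * C) ^ 2 + 1) + Real.log n) ∧
    ∃ M : ℕ, (∀ a ∈ A, a ≤ M) ∧ Real.log ((M : ℝ) + 1) ≤ Real.log (3 + C) + Real.log n := by
  have hn0 : (3 : ℝ) ≤ n := by exact_mod_cast hn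
  have hb1 : 1 ≤ Real.sqrt n := by
    rw [Real.one_le_sqrt]
    linarith
  have hsq : Real.sqrt n * Real.sqrt n = n := Real.mul_self_sqrt (by linarith)
  have hln : 1 ≤ Real.log n := by
    rw [Real.le_log_iff_exp_le (by linarith)]
    have := Real.exp_one_lt_d9
    linarith
  refine ⟨hb1, hln, fun t ht0 ht => ?_, ⌊2 * Real.sqrt n + C⌋₊, fun a ha => Nat.le_floor (hg.top a ha), ?_⟩
  · rw [← Real.log_mul (by positivity) (by positivity)]
    refine Real.log_le_log (by positivity) ?_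
    have h1 : 2 * Real.sqrt n + C + t ≤ (10 + 2 * C) * Real.sqrt n := by nlinarith
    have h2 : (2 * Real.sqrt n + C + t) ^ 2 ≤ ((10 + 2 * C) * Real.sqrt n) ^ 2 :=
      pow_le_pow_left₀ (by positivity) h1 2
    have h3 : ((10 + 2 * C) * Real.sqrt n) ^ 2 = (10 + 2 * C) ^ 2 * n := by
      rw [mul_pow, sq (Real.sqrt n), hsq]
    rw [h3] at h2
    linarith
  · rw [← Real.log_mul (by positivity) (by positivity)]
    refine Real.log_le_log (by positivity) ?_
    have h1 : (⌊2 * Real.sqrt n + C⌋₊ : ℝ) ≤ 2 * Real.sqrt n + C := Nat.floor_le (by positivity)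
    have h2 : Real.sqrt n ≤ n := by nlinarith
    nlinarith

theorem FF_pos {b : ℝ} (hb : 0 < b) (A : Finset ℕ) (l : ℕ) : 0 < FF b A l := by
  unfold FF
  have h2 := num_pos24 A l
  have h3 := den_pos24 A l
  positivity

theorem FF_far {b : ℝ} (hb : 0 < b) {A : Finset ℕ} {l : ℕ} (h : l ∉ A) (hl : 8 * b ≤ l) :
    FF b A l ≤ (1 / 2) ^ l := by
  have h3 := den_pos24 A l
  have hl0 : (0 : ℝ) < l := by linarith
  have e1 : FF b A l ≤ b ^ l / (l.factorial : ℝ) := by
    unfold FF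
    rw [div_le_iff₀ h3]
    refine mul_le_mul_of_nonneg_left ?_ (by positivity)
    rw [Finset.erase_eq_of_notMem h]
    refine Finset.prod_le_prod (fun a _ => abs_nonneg _) fun a _ => ?_
    have ha : (0 : ℝ) ≤ a := by positivity
    rw [abs_le]
    constructor <;> linarith
  refine e1.trans ?_
  rw [div_le_iff₀ (by positivity), ← Real.log_le_log_iff (by positivity) (by positivity),
    Real.log_mul (by positivity) (by positivity), Real.log_pow, Real.log_pow]
  have e2 := log_fac_ge l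
  have e3 : Real.log b ≤ Real.log ((l : ℝ) / 8) := Real.log_le_log hb (by linarith)
  rw [Real.log_div hl0.ne' (by norm_num)] at e3
  have e4 : Real.log 8 = Real.log 2 + 2 * Real.log 2 := by
    rw [show (8 : ℝ) = 2 * 2 ^ 2 by norm_num, Real.log_mul (by norm_num) (by norm_num), Real.log_pow]
    norm_num
  have e5 := Real.log_two_gt_d9
  have e6 : Real.log (1 / 2) = - Real.log 2 := by rw [one_div, Real.log_inv]
  rw [e6]
  have e7 : (l : ℝ) * Real.log b ≤ l * (Real.log l - Real.log 8) := mul_le_mul_of_nonneg_left e3 hl0.le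
  rw [e4] at e7
  nlinarith

theorem FF_le (C : ℝ) : ∃ K n₀ : ℕ, ∀ n ≥ n₀, ∀ A : Finset ℕ, Good C n A → ∀ l : ℕ, l ∉ A →
    FF (Real.sqrt n) A l ≤ (n : ℝ) ^ K := by
  refine ⟨⌈7 + 2 * C * (Real.log ((10 + 2 * C) ^ 2 + 1) + 1) + 2 * (Real.log (3 + C) + 1)⌉₊, 3,
    fun n hn A hg l hl => ?_⟩
  have hC : 0 ≤ C := (abs_nonneg _).trans (hg.disc 0 le_rfl)
  obtain ⟨hb1, hln, h8, M, hM, hMl⟩ := cst24 hC hn hg
  set K : ℕ := ⌈7 + 2 * C * (Real.log ((10 + 2 * C) ^ 2 + 1) + 1) + 2 * (Real.log (3 + C) + 1)⌉₊ with hK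
  have hKr : 7 + 2 * C * (Real.log ((10 + 2 * C) ^ 2 + 1) + 1) + 2 * (Real.log (3 + C) + 1) ≤ (K : ℝ) :=
    Nat.le_ceil _
  have hn1 : (1 : ℝ) ≤ n := by
    have : (3 : ℝ) ≤ n := by exact_mod_cast hn
    linarith
  have hb0 : 0 < Real.sqrt n := by linarith
  rcases le_or_gt (8 * Real.sqrt n) l with h1 | h1
  · refine (FF_far hb0 hl h1).trans ?_
    exact (pow_le_one₀ (by norm_num) (by norm_num)).trans (one_le_pow₀ hn1)
  · rw [← Real.log_le_log_iff (FF_pos hb0 A l) (by positivity), Real.log_pow, logFF24 hb0]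
    have e1 := log_fac_ge l
    have e2 := (abs_le.1 (sum_log hM l)).2
    have e3 := (abs_le.1 (abel_le (by omega) hg (t := (l : ℝ)) (by positivity))).2
    have e4 := HH_le hb0 (t := (l : ℝ)) (by positivity)
    have e5 := h8 l (by positivity) (by linarith)
    set X := Real.log ((2 * Real.sqrt n + C + l) ^ 2 + 1) with hX
    set Y := Real.log ((10 + 2 * C) ^ 2 + 1) with hY
    set Z := Real.log n with hZ
    set W := Real.log (3 + C) with hW
    have hY0 : 0 ≤ Y := Real.log_nonneg (by nlinarith)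
    have hW0 : 0 ≤ W := Real.log_nonneg (by linarith)
    have e6 : 2 * C * X ≤ 2 * C * (Y + Z) := mul_le_mul_of_nonneg_left e5 (by positivity)
    have e7 : (7 + 2 * C * (Y + 1) + 2 * (W + 1)) * Z ≤ K * Z :=
      mul_le_mul_of_nonneg_right hKr (by linarith)
    have e8 : 7 + 2 * C * (Y + Z) + 2 * (W + Z) ≤ (7 + 2 * C * (Y + 1) + 2 * (W + 1)) * Z := by
      have f1 : 0 ≤ (7 + 2 * C * Y + 2 * W) * (Z - 1) :=
        mul_nonneg (by positivity) (by linarith)
      nlinarith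
    linarith

theorem le_FF (C : ℝ) : ∃ K n₀ : ℕ, ∀ n ≥ n₀, ∀ A : Finset ℕ, Good C n A → ∀ a ∈ A,
    1 ≤ FF (Real.sqrt n) A a * (n : ℝ) ^ K := by
  refine ⟨⌈5 + (2 + C) ^ 2 + 2 * C * (Real.log ((10 + 2 * C) ^ 2 + 1) + 1) + 3 * (Real.log (3 + C) + 1)⌉₊, 3,
    fun n hn A hg a ha => ?_⟩
  have hC : 0 ≤ C := (abs_nonneg _).trans (hg.disc 0 le_rfl)
  obtain ⟨hb1, hln, h8, M, hM, hMl⟩ := cst24 hC hn hg
  set K : ℕ :=
    ⌈5 + (2 + C) ^ 2 + 2 * C * (Real.log ((10 + 2 * C) ^ 2 + 1) + 1) + 3 * (Real.log (3 + C) + 1)⌉₊ with hK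
  have hKr : 5 + (2 + C) ^ 2 + 2 * C * (Real.log ((10 + 2 * C) ^ 2 + 1) + 1) + 3 * (Real.log (3 + C) + 1) ≤
    (K : ℝ) := Nat.le_ceil _
  have hn1 : (1 : ℝ) ≤ n := by
    have : (3 : ℝ) ≤ n := by exact_mod_cast hn
    linarith
  have hb0 : 0 < Real.sqrt n := by linarith
  have hF := FF_pos hb0 A a
  have hat := hg.top a ha
  rw [← Real.log_nonneg_iff (by positivity), Real.log_mul hF.ne' (by positivity), Real.log_pow, logFF24 hb0]
  have e1 := log_fac_le a
  have e2 := (abs_le.1 (sum_log hM a)).1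
  have e3 := (abs_le.1 (abel_le (by omega) hg (t := (a : ℝ)) (by positivity))).1
  have e4 := le_HH hb1 hC (t := (a : ℝ)) (by positivity) hat
  have e5 := h8 a (by positivity) (by linarith)
  have e9 : Real.log (a : ℝ) ≤ Real.log ((M : ℝ) + 1) := by
    rcases Nat.eq_zero_or_pos a with h0 | h0
    · rw [h0, Nat.cast_zero, Real.log_zero]
      exact Real.log_nonneg (by
        have : (0 : ℝ) ≤ M := by positivity
        linarith)
    · refine Real.log_le_log (by exact_mod_cast h0) ?_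
      have : (a : ℝ) ≤ M := by exact_mod_cast hM a ha
      linarith
  set X := Real.log ((2 * Real.sqrt n + C + a) ^ 2 + 1) with hX
  set Y := Real.log ((10 + 2 * C) ^ 2 + 1) with hY
  set Z := Real.log n with hZ
  set W := Real.log (3 + C) with hW
  have hY0 : 0 ≤ Y := Real.log_nonneg (by nlinarith)
  have hW0 : 0 ≤ W := Real.log_nonneg (by linarith)
  have e6 : 2 * C * X ≤ 2 * C * (Y + Z) := mul_le_mul_of_nonneg_left e5 (by positivity)
  have e7 : (5 + (2 + C) ^ 2 + 2 * C * (Y + 1) + 3 * (W + 1)) * Z ≤ K * Z :=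
    mul_le_mul_of_nonneg_right hKr (by linarith)
  have e8 : 5 + (2 + C) ^ 2 + 2 * C * (Y + Z) + 3 * (W + Z) ≤
      (5 + (2 + C) ^ 2 + 2 * C * (Y + 1) + 3 * (W + 1)) * Z := by
    have f1 : 0 ≤ (5 + (2 + C) ^ 2 + 2 * C * Y + 3 * W) * (Z - 1) :=
      mul_nonneg (by positivity) (by linarith)
    nlinarith
  linarith

end Pool.Agent.Helper67.DP
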