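import Pool.Agent.Helper67.DP.Defs
import Pool.Agent.Helper1.DL.ShapeDefs
import Pool.Agent.Helper97.TF6.Defs

/-!
BLOCK DP-R1 (about 150 lines; products). The potential `WX` of the bead set `XB N A` in terms of `FF`.

Proof in words. `X = XB N A = {N + a : a ∈ A} ∪ {z < N : N - 1 - z ∉ A}`.
* `WX_up`, `y = N + l`: `∏_{z < N} (N + l - z) = (N+l)!/l!`; the factors of `z = N + a`, `a ∈ A`, `a ≠ l`, are `|l - a|`; the missing `z = N - 1 - a`, `a ∈ A`, would have given `l + a + 1`. So `WX b X y = b^(N+l)/(N+l)! * ((N+l)!/l!) / ∏_{a ∈ A} (l+a+1) * ∏_{a ∈ A, a ≠ l} |l - a|`.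
* `WX_down`, `y = N - 1 - c`, `c < N`: `∏_{z < N, z ≠ y} |y - z| = y! c!`; the factors of `z = N + a` are `c + a + 1`; the missing `z = N - 1 - a`, `a ∈ A`, `a ≠ c`, would have given `|a - c|`. So `WX b X y = b^y/y! * y! c! ∏_{a ∈ A} (c+a+1) / ∏_{a ∈ A, a ≠ c} |a - c|`, and `WX b X y * (b * FF b A c) = b^N`.
* `rt_abs`: `X.erase y = X` for `y ∉ X`, `∏_{z ∈ X.erase x} |y - z| = (∏_{z ∈ X} |y - z|) / |y - x|`.
-/

set_option autoImplicit false

namespace Pool.Agent.Helper67.DP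

open Pool.Agent.Helper1.DL Pool.Agent.Helper97.TF6

theorem WX_pos {b : ℝ} (hb : 0 < b) (X : Finset ℕ) (y : ℕ) : 0 < WX b X y := by
  unfold WX
  refine mul_pos (by positivity) (Finset.prod_pos fun z hz => ?_)
  rw [abs_pos, sub_ne_zero]
  exact fun h => (Finset.ne_of_mem_erase hz) (by exact_mod_cast h.symm)

private theorem asc_h54 (l N : ℕ) : (∏ a ∈ Finset.range N, ((l : ℝ) + a + 1)) * (l.factorial : ℝ) = ((N + l).factorial : ℝ) := by
  induction N with
  | zero => simp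
  | succ N ih =>
    rw [Finset.prod_range_succ, mul_right_comm, ih]
    have h1 : N + 1 + l = (N + l) + 1 := by ring
    rw [h1, Nat.factorial_succ]
    push_cast
    ring

private theorem refl_h54 (c : ℕ) : ∏ a ∈ Finset.range c, |(c : ℝ) - a| = (c.factorial : ℝ) := by
  rw [← Finset.prod_range_add_one_eq_factorial, ← Finset.prod_range_reflect, Nat.cast_prod]
  refine Finset.prod_congr rfl fun a ha => ?_
  rw [Finset.mem_range] at ha
  have h1 : ((c - 1 - a : ℕ) : ℝ) = (c : ℝ) - 1 - a := by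
    rw [Nat.cast_sub (by omega), Nat.cast_sub (by omega), Nat.cast_one]
  rw [h1]
  have h2 : (c : ℝ) - ((c : ℝ) - 1 - a) = ((a + 1 : ℕ) : ℝ) := by
    push_cast
    ring
  rw [h2, Nat.abs_cast]

private theorem up_h54 (c N : ℕ) : ∏ a ∈ Finset.Ico (c + 1) N, |(c : ℝ) - a| = ((N - 1 - c).factorial : ℝ) := by
  have h3 : N - (c + 1) = N - 1 - c := by omega
  rw [Finset.prod_Ico_eq_prod_range, h3, ← Finset.prod_range_add_one_eq_factorial, Nat.cast_prod]
  refine Finset.prod_congr rfl fun k _ => ?_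
  have h2 : (c : ℝ) - ((c + 1 + k : ℕ) : ℝ) = -((k + 1 : ℕ) : ℝ) := by
    push_cast
    ring
  rw [h2, abs_neg, Nat.abs_cast]

private theorem erase_h54 {c N : ℕ} (hc : c < N) :
    ∏ a ∈ (Finset.range N).erase c, |(c : ℝ) - a| = (c.factorial : ℝ) * ((N - 1 - c).factorial : ℝ) := by
  have h1 : (Finset.range N).erase c = Finset.range c ∪ Finset.Ico (c + 1) N := by
    ext a
    simp only [Finset.mem_erase, Finset.mem_range, Finset.mem_union, Finset.mem_Ico]
    omega
  rw [h1, Finset.prod_union, refl_h54, up_h54]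
  rw [Finset.disjoint_left]
  intro a ha hb
  rw [Finset.mem_range] at ha
  rw [Finset.mem_Ico] at hb
  omega

private theorem filt_h54 (N : ℕ) (A : Finset ℕ) : (Finset.range N).filter (fun a => a ∉ A) = Finset.range N \ A := by
  ext a
  simp

private theorem disj_h54 (N : ℕ) (B C : Finset ℕ) (hC : ∀ a ∈ C, a < N) :
    Disjoint (B.image (fun a => N + a)) (C.image (fun a => N - 1 - a)) := by
  rw [Finset.disjoint_left]
  intro z hz hz'
  obtain ⟨a, -, rfl⟩ := Finset.mem_image.1 hz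
  obtain ⟨c, hc, h⟩ := Finset.mem_image.1 hz'
  have := hC c hc
  omega

theorem WX_up {b : ℝ} (hb : 0 < b) {N : ℕ} {A : Finset ℕ} (hA : ∀ a ∈ A, a < N) (l : ℕ) :
    WX b (XB N A) (N + l) = b ^ N * FF b A l := by
  have h1 : (XB N A).erase (N + l) = (A.erase l).image (fun a => N + a) ∪ (Finset.range N \ A).image (fun a => N - 1 - a) := by
    unfold XB
    rw [filt_h54]
    ext z
    simp only [Finset.mem_erase, Finset.mem_union, Finset.mem_image, Finset.mem_sdiff, Finset.mem_range]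
    constructor
    · rintro ⟨h, ⟨a, ha, rfl⟩ | ⟨a, ha, rfl⟩⟩
      · exact Or.inl ⟨a, ⟨fun h2 => h (by rw [h2]), ha⟩, rfl⟩
      · exact Or.inr ⟨a, ha, rfl⟩
    · rintro (⟨a, ⟨h2, ha⟩, rfl⟩ | ⟨a, ha, rfl⟩)
      · exact ⟨fun h => h2 (by omega), Or.inl ⟨a, ha, rfl⟩⟩
      · exact ⟨by omega, Or.inr ⟨a, ha, rfl⟩⟩
  have hlt : ∀ a ∈ Finset.range N \ A, a < N := fun a ha => Finset.mem_range.1 (Finset.mem_sdiff.1 ha).1
  have hAs : A ⊆ Finset.range N := fun a ha => Finset.mem_range.2 (hA a ha)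
  have h2 : ∏ z ∈ (XB N A).erase (N + l), |((N + l : ℕ) : ℝ) - z| =
      (∏ a ∈ A.erase l, |(l : ℝ) - a|) * ∏ a ∈ Finset.range N \ A, ((l : ℝ) + a + 1) := by
    rw [h1, Finset.prod_union (disj_h54 N _ _ hlt),
      Finset.prod_image fun a _ b _ h => Nat.add_left_cancel h, Finset.prod_image]
    · congr 1
      · refine Finset.prod_congr rfl fun a _ => ?_
        congr 1
        push_cast
        ring
      · refine Finset.prod_congr rfl fun a ha => ?_
        have := hlt a ha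
        have h3 : ((N - 1 - a : ℕ) : ℝ) = (N : ℝ) - 1 - a := by
          rw [Nat.cast_sub (by omega), Nat.cast_sub (by omega), Nat.cast_one]
        rw [h3]
        have h4 : ((N + l : ℕ) : ℝ) - ((N : ℝ) - 1 - a) = (l : ℝ) + a + 1 := by
          push_cast
          ring
        rw [h4, abs_of_nonneg (by positivity)]
    · intro a ha c hc h
      have := hlt a ha
      have := hlt c hc
      simp only at h
      omega
  have h3 : (∏ a ∈ Finset.range N \ A, ((l : ℝ) + a + 1)) * ∏ a ∈ A, ((l : ℝ) + a + 1) =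
      ∏ a ∈ Finset.range N, ((l : ℝ) + a + 1) := Finset.prod_sdiff hAs
  have h4 := asc_h54 l N
  rw [← h3] at h4
  have h5 : 0 < ∏ a ∈ A, ((l : ℝ) + a + 1) := Finset.prod_pos fun a _ => by positivity
  unfold WX FF
  rw [h2, ← h4, pow_add]
  have h6 : (l.factorial : ℝ) ≠ 0 := by positivity
  have h7 : (∏ a ∈ Finset.range N \ A, ((l : ℝ) + a + 1)) ≠ 0 :=
    (Finset.prod_pos fun a _ => by positivity).ne'
  have h8 := h5.ne'
  field_simp

theorem WX_down {b : ℝ} (hb : 0 < b) {N : ℕ} {A : Finset ℕ} (hA : ∀ a ∈ A, a < N) {c : ℕ} (hc : c < N) :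
    WX b (XB N A) (N - 1 - c) * (b * FF b A c) = b ^ N := by
  have h1 : (XB N A).erase (N - 1 - c) = A.image (fun a => N + a) ∪ ((Finset.range N \ A).erase c).image (fun a => N - 1 - a) := by
    unfold XB
    rw [filt_h54]
    ext z
    simp only [Finset.mem_erase, Finset.mem_union, Finset.mem_image, Finset.mem_sdiff, Finset.mem_range]
    constructor
    · rintro ⟨h, ⟨a, ha, rfl⟩ | ⟨a, ha, rfl⟩⟩
      · exact Or.inl ⟨a, ha, rfl⟩
      · exact Or.inr ⟨a, ⟨fun h2 => h (by rw [h2]), ha⟩, rfl⟩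
    · rintro (⟨a, ha, rfl⟩ | ⟨a, ⟨h2, ha⟩, rfl⟩)
      · exact ⟨by omega, Or.inl ⟨a, ha, rfl⟩⟩
      · refine ⟨fun h => h2 ?_, Or.inr ⟨a, ha, rfl⟩⟩
        have := ha.1
        omega
  have hlt : ∀ a ∈ (Finset.range N \ A).erase c, a < N := fun a ha =>
    Finset.mem_range.1 (Finset.mem_sdiff.1 (Finset.mem_of_mem_erase ha)).1
  have hcr : ((N - 1 - c : ℕ) : ℝ) = (N : ℝ) - 1 - c := by
    rw [Nat.cast_sub (by omega), Nat.cast_sub (by omega), Nat.cast_one]
  have h2 : ∏ z ∈ (XB N A).erase (N - 1 - c), |((N - 1 - c : ℕ) : ℝ) - z| =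
      (∏ a ∈ A, ((c : ℝ) + a + 1)) * ∏ a ∈ (Finset.range N \ A).erase c, |(c : ℝ) - a| := by
    rw [h1, Finset.prod_union (disj_h54 N _ _ hlt),
      Finset.prod_image fun a _ b _ h => Nat.add_left_cancel h, Finset.prod_image]
    · congr 1
      · refine Finset.prod_congr rfl fun a _ => ?_
        rw [hcr]
        have h4 : (N : ℝ) - 1 - c - ((N + a : ℕ) : ℝ) = -((c : ℝ) + a + 1) := by
          push_cast
          ring
        rw [h4, abs_neg, abs_of_nonneg (by positivity)]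
      · refine Finset.prod_congr rfl fun a ha => ?_
        have := hlt a ha
        have h3 : ((N - 1 - a : ℕ) : ℝ) = (N : ℝ) - 1 - a := by
          rw [Nat.cast_sub (by omega), Nat.cast_sub (by omega), Nat.cast_one]
        rw [h3, hcr, abs_sub_comm]
        congr 1
        ring
    · intro a ha d hd h
      have := hlt a ha
      have := hlt d hd
      simp only at h
      omega
  have hsub : A.erase c ⊆ (Finset.range N).erase c := Finset.erase_subset_erase _ fun a ha => Finset.mem_range.2 (hA a ha)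
  have hsd : (Finset.range N).erase c \ A.erase c = (Finset.range N \ A).erase c := by
    ext a
    simp only [Finset.mem_erase, Finset.mem_sdiff, Finset.mem_range, ne_eq]
    tauto
  have h3 : (∏ a ∈ (Finset.range N \ A).erase c, |(c : ℝ) - a|) * ∏ a ∈ A.erase c, |(c : ℝ) - a| =
      (c.factorial : ℝ) * ((N - 1 - c).factorial : ℝ) := by
    rw [← erase_h54 hc, ← hsd]
    exact Finset.prod_sdiff hsub
  have h5 : 0 < ∏ a ∈ A, ((c : ℝ) + a + 1) := Finset.prod_pos fun a _ => by positivity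
  have hN : b ^ N = b ^ (N - 1 - c) * (b * b ^ c) := by
    rw [← pow_succ', ← pow_add]
    congr 1
    omega
  unfold WX FF
  rw [h2, hN]
  have h6 : (c.factorial : ℝ) ≠ 0 := by positivity
  have h7 : ((N - 1 - c).factorial : ℝ) ≠ 0 := by positivity
  have h8 := h5.ne'
  calc b ^ (N - 1 - c) / ((N - 1 - c).factorial : ℝ) * ((∏ a ∈ A, ((c : ℝ) + a + 1)) *
        ∏ a ∈ (Finset.range N \ A).erase c, |(c : ℝ) - a|) *
        (b * (b ^ c / (c.factorial : ℝ) * (∏ a ∈ A.erase c, |(c : ℝ) - a|) / ∏ a ∈ A, ((c : ℝ) + a + 1)))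
      = b ^ (N - 1 - c) * (b * b ^ c) * (((∏ a ∈ (Finset.range N \ A).erase c, |(c : ℝ) - a|) *
          ∏ a ∈ A.erase c, |(c : ℝ) - a|) / ((c.factorial : ℝ) * ((N - 1 - c).factorial : ℝ))) := by
        field_simp
    _ = b ^ (N - 1 - c) * (b * b ^ c) := by
        rw [h3, div_self (mul_ne_zero h6 h7), mul_one]

theorem rt_abs {b : ℝ} (hb : 0 < b) {X : Finset ℕ} {x y : ℕ} (hx : x ∈ X) (hy : y ∉ X) :
    |rt b X x y| = WX b X y / (WX b X x * |(y : ℝ) - x|) := by
  have hyx : |(y : ℝ) - x| ≠ 0 := by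
    rw [abs_ne_zero, sub_ne_zero]
    intro h
    have h2 : y = x := by exact_mod_cast h
    exact hy (h2 ▸ hx)
  have h1 : ∏ z ∈ X.erase y, |(y : ℝ) - z| = |(y : ℝ) - x| * ∏ z ∈ X.erase x, |(y : ℝ) - z| := by
    rw [Finset.erase_eq_of_notMem hy, Finset.mul_prod_erase X (fun z => |(y : ℝ) - z|) hx]
  have h2 : |∏ z ∈ X.erase x, (((y : ℝ) - (z : ℝ)) / ((x : ℝ) - (z : ℝ)))| =
      (∏ z ∈ X.erase x, |(y : ℝ) - z|) / ∏ z ∈ X.erase x, |(x : ℝ) - z| := by
    rw [Finset.abs_prod, ← Finset.prod_div_distrib]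
    exact Finset.prod_congr rfl fun z _ => abs_div _ _
  have h3 : ∏ z ∈ X.erase x, |(x : ℝ) - z| ≠ 0 := by
    rw [Finset.prod_ne_zero_iff]
    intro z hz
    rw [abs_ne_zero, sub_ne_zero]
    exact fun h => (Finset.ne_of_mem_erase hz) (by exact_mod_cast h.symm)
  unfold rt WX
  rw [abs_mul, h2, h1, abs_of_pos (by positivity : 0 < b ^ ((y : ℤ) - (x : ℤ)) * ((x.factorial : ℝ) / (y.factorial : ℝ))),
    zpow_sub₀ hb.ne', zpow_natCast, zpow_natCast]
  have h4 : (x.factorial : ℝ) ≠ 0 := by positivity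
  have h5 : (y.factorial : ℝ) ≠ 0 := by positivity
  field_simp

end Pool.Agent.Helper67.DP
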