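import Pool.Agent.Helper67.DP.R1
import Pool.Agent.Helper67.DP.L6
import Pool.Agent.Helper1.DL.Shape1

/-!
BLOCK DP-R2 (about 200 lines). `RR √n (XB N A) ≤ n^K`.

Proof in words. `b = √n`, `X = XB N A`, `FF = FF b A`; `K₁` a common exponent in `FF_le`, `le_FF`.
* `|rt b X x y| ≤ WX y / WX x` for `x ∈ X`, `y ∉ X` (`rt_abs`, `|y - x| ≥ 1`), so `RR b X ≤ (∑_{x ∈ X} 1/WX(x)²) * (∑'_{y ∉ X} WX(y)²)`.
* `y ∉ X` iff `y = N + l`, `l ∉ A`, or `y = N - 1 - a`, `a ∈ A` (`mem_XB`); `WX(y) = b^N FF l`, resp. `b^N / (b FF a)`. So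
  `∑'_{y ∉ X} WX(y)² = b^(2N) (∑'_{l ∉ A} FF(l)² + ∑_{a ∈ A} 1/(b FF a)²) ≤ b^(2N) n^(K₂)`: for `l < 8 b` use `FF_le`, for `l ≥ 8 b` `FF_far` (geometric series); `|A| ≤ n`, `1/(b FF a)² ≤ n^(2 K₁)`.
* `x ∈ X` iff `x = N + a`, `a ∈ A`, or `x = N - 1 - l`, `l < N`, `l ∉ A`: `1/WX(x)² = b^(-2N) / FF(a)²`, resp. `b^(-2N) b² FF(l)²`; the sum is `≤ b^(-2N) n^(K₂)`.
-/

set_option autoImplicit false

namespace Pool.Agent.Helper67.DP

open Pool.Agent.Helper1.DL Pool.Agent.Helper97.TF6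

private theorem split23 (s : Finset ℕ) (N : ℕ) (g : ℕ → ℝ) :
    ∑ y ∈ s, g y = ∑ l ∈ (s.filter (fun y => N ≤ y)).image (fun y => y - N), g (N + l) +
      ∑ c ∈ (s.filter (fun y => ¬ N ≤ y)).image (fun y => N - 1 - y), g (N - 1 - c) := by
  rw [← Finset.sum_filter_add_sum_filter_not s (fun y => N ≤ y)]
  congr 1
  · rw [Finset.sum_image]
    · refine Finset.sum_congr rfl fun y hy => ?_
      rw [Finset.mem_filter] at hy
      rw [Nat.add_sub_cancel' hy.2]
    · intro y hy z hz h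
      rw [Finset.mem_coe, Finset.mem_filter] at hy hz
      have h1 : y - N = z - N := h
      omega
  · rw [Finset.sum_image]
    · refine Finset.sum_congr rfl fun y hy => ?_
      rw [Finset.mem_filter] at hy
      congr 1
      omega
    · intro y hy z hz h
      rw [Finset.mem_coe, Finset.mem_filter] at hy hz
      have h1 : N - 1 - y = N - 1 - z := h
      omega

theorem RR_le_prod {b : ℝ} (hb : 0 < b) {N : ℕ} {A : Finset ℕ} (hA : ∀ a ∈ A, a < N) {S T : ℝ}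
    (hS : ∀ s : Finset ℕ, (∀ l ∈ s, l ∉ A) → ∑ l ∈ s, FF b A l ^ 2 ≤ S)
    (hT : ∑ a ∈ A, (1 / FF b A a) ^ 2 ≤ T) :
    RR b (XB N A) ≤ (T + b ^ 2 * S) * (S + T / b ^ 2) := by
  have hS0 : 0 ≤ S := by simpa using hS ∅ (by simp)
  have hT0 : 0 ≤ T := le_trans (Finset.sum_nonneg fun a _ => sq_nonneg _) hT
  have hbN : 0 < b ^ N := pow_pos hb N
  set X := XB N A with hX
  have hW0 : ∀ y, 0 < WX b X y := WX_pos hb X
  have hF0 : ∀ l, 0 < FF b A l := FF_pos hb A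
  have hup : ∀ l, WX b X (N + l) = b ^ N * FF b A l := fun l => WX_up hb hA l
  have hdn : ∀ c, c < N → WX b X (N - 1 - c) = b ^ N / (b * FF b A c) := fun c hc => by
    rw [eq_div_iff (by have := hF0 c; positivity)]
    exact WX_down hb hA hc
  -- the sum over the targets
  have htar : ∀ s : Finset ℕ, ∑ y ∈ s, (if y ∈ X then 0 else WX b X y ^ 2) ≤
      b ^ (2 * N) * (S + T / b ^ 2) := by
    intro s
    have e1 : ∑ y ∈ s, (if y ∈ X then 0 else WX b X y ^ 2) =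
        ∑ y ∈ s.filter (fun y => y ∉ X), WX b X y ^ 2 := by
      rw [Finset.sum_filter]
      refine Finset.sum_congr rfl fun y _ => ?_
      by_cases h : y ∈ X
      · rw [if_pos h, if_neg (not_not.2 h)]
      · rw [if_neg h, if_pos h]
    rw [e1, split23 _ N]
    set s1 := ((s.filter (fun y => y ∉ X)).filter (fun y => N ≤ y)).image (fun y => y - N) with hs1
    set s2 := ((s.filter (fun y => y ∉ X)).filter (fun y => ¬ N ≤ y)).image (fun y => N - 1 - y) with hs2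
    have h1 : ∀ l ∈ s1, l ∉ A := by
      intro l hl hlA
      rw [hs1, Finset.mem_image] at hl
      obtain ⟨y, hy, rfl⟩ := hl
      rw [Finset.mem_filter, Finset.mem_filter] at hy
      exact hy.1.2 (mem_XB.2 (Or.inl ⟨hy.2, hlA⟩))
    have h2 : ∀ c ∈ s2, c ∈ A := by
      intro c hc
      rw [hs2, Finset.mem_image] at hc
      obtain ⟨y, hy, rfl⟩ := hc
      rw [Finset.mem_filter, Finset.mem_filter] at hy
      by_contra hcA
      exact hy.1.2 (mem_XB.2 (Or.inr ⟨not_le.1 hy.2, hcA⟩))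
    have e2 : ∑ l ∈ s1, WX b X (N + l) ^ 2 = b ^ (2 * N) * ∑ l ∈ s1, FF b A l ^ 2 := by
      rw [Finset.mul_sum]
      refine Finset.sum_congr rfl fun l _ => ?_
      rw [hup, mul_pow, ← pow_mul, mul_comm N 2]
    have e3 : ∑ c ∈ s2, WX b X (N - 1 - c) ^ 2 =
        b ^ (2 * N) * ((∑ c ∈ s2, (1 / FF b A c) ^ 2) / b ^ 2) := by
      rw [Finset.sum_div, Finset.mul_sum]
      refine Finset.sum_congr rfl fun c hc => ?_
      rw [hdn c (hA c (h2 c hc))]
      have := hF0 c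
      rw [div_pow, mul_pow, ← pow_mul, mul_comm N 2]
      field_simp
    have h3 : ∑ c ∈ s2, (1 / FF b A c) ^ 2 ≤ T :=
      le_trans (Finset.sum_le_sum_of_subset_of_nonneg h2 fun _ _ _ => sq_nonneg _) hT
    rw [e2, e3, ← mul_add]
    have h4 := hS s1 h1
    gcongr
  -- the sum over the sources
  have hsrc : ∑ x ∈ X, (1 / WX b X x) ^ 2 ≤ (T + b ^ 2 * S) / b ^ (2 * N) := by
    rw [split23 _ N]
    set s1 := (X.filter (fun y => N ≤ y)).image (fun y => y - N) with hs1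
    set s2 := (X.filter (fun y => ¬ N ≤ y)).image (fun y => N - 1 - y) with hs2
    have h1 : ∀ l ∈ s1, l ∈ A := by
      intro l hl
      rw [hs1, Finset.mem_image] at hl
      obtain ⟨y, hy, rfl⟩ := hl
      rw [Finset.mem_filter] at hy
      rcases mem_XB.1 hy.1 with h | h
      · exact h.2
      · exact absurd hy.2 (not_le.2 h.1)
    have h2 : ∀ c ∈ s2, c ∉ A ∧ c < N := by
      intro c hc
      rw [hs2, Finset.mem_image] at hc
      obtain ⟨y, hy, rfl⟩ := hc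
      rw [Finset.mem_filter] at hy
      rcases mem_XB.1 hy.1 with h | h
      · exact absurd h.1 hy.2
      · exact ⟨h.2, by omega⟩
    have e2 : ∑ l ∈ s1, (1 / WX b X (N + l)) ^ 2 = (∑ l ∈ s1, (1 / FF b A l) ^ 2) / b ^ (2 * N) := by
      rw [Finset.sum_div]
      refine Finset.sum_congr rfl fun l _ => ?_
      rw [hup]
      have := hF0 l
      rw [div_pow, mul_pow, ← pow_mul, mul_comm N 2]
      field_simp
    have e3 : ∑ c ∈ s2, (1 / WX b X (N - 1 - c)) ^ 2 =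
        b ^ 2 * (∑ c ∈ s2, FF b A c ^ 2) / b ^ (2 * N) := by
      rw [Finset.mul_sum, Finset.sum_div]
      refine Finset.sum_congr rfl fun c hc => ?_
      rw [hdn c (h2 c hc).2]
      have := hF0 c
      rw [one_div_div, div_pow, mul_pow, ← pow_mul, mul_comm N 2]
    have h3 : ∑ l ∈ s1, (1 / FF b A l) ^ 2 ≤ T :=
      le_trans (Finset.sum_le_sum_of_subset_of_nonneg h1 fun _ _ _ => sq_nonneg _) hT
    have h4 := hS s2 fun c hc => (h2 c hc).1
    rw [e2, e3, ← add_div]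
    gcongr
  -- the sum
  have hx : ∀ x ∈ X, (∑' y : ℕ, if y ∈ X then 0 else rt b X x y ^ 2) ≤
      (1 / WX b X x) ^ 2 * (b ^ (2 * N) * (S + T / b ^ 2)) := by
    intro x hxX
    apply tsum_le_of_sum_le' (by positivity)
    intro s
    refine le_trans ?_ (mul_le_mul_of_nonneg_left (htar s) (sq_nonneg _))
    rw [Finset.mul_sum]
    refine Finset.sum_le_sum fun y _ => ?_
    by_cases hy : y ∈ X
    · rw [if_pos hy, if_pos hy, mul_zero]
    · rw [if_neg hy, if_neg hy, ← sq_abs, rt_abs hb hxX hy, ← mul_pow]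
      have h1 : 1 ≤ |(y : ℝ) - x| := by
        have hne : (y : ℤ) - x ≠ 0 := by
          intro h0
          have : y = x := by omega
          exact hy (this ▸ hxX)
        have h2 : (1 : ℤ) ≤ |(y : ℤ) - x| := Int.one_le_abs hne
        exact_mod_cast h2
      have hWx := hW0 x
      have hWy := hW0 y
      have h3 : WX b X y / (WX b X x * |(y : ℝ) - x|) ≤ 1 / WX b X x * WX b X y := by
        rw [div_le_iff₀ (by positivity)]
        have h4 : 1 / WX b X x * WX b X y * (WX b X x * |(y : ℝ) - x|) = WX b X y * |(y : ℝ) - x| := by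
          field_simp
        rw [h4]
        exact le_mul_of_one_le_right hWy.le h1
      exact pow_le_pow_left₀ (by positivity) h3 2
  unfold RR
  calc ∑ x ∈ X, ∑' y : ℕ, (if y ∈ X then 0 else rt b X x y ^ 2)
      ≤ ∑ x ∈ X, (1 / WX b X x) ^ 2 * (b ^ (2 * N) * (S + T / b ^ 2)) := Finset.sum_le_sum hx
    _ = (∑ x ∈ X, (1 / WX b X x) ^ 2) * (b ^ (2 * N) * (S + T / b ^ 2)) := by rw [Finset.sum_mul]
    _ ≤ (T + b ^ 2 * S) / b ^ (2 * N) * (b ^ (2 * N) * (S + T / b ^ 2)) :=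
        mul_le_mul_of_nonneg_right hsrc (by positivity)
    _ = (T + b ^ 2 * S) * (S + T / b ^ 2) := by
        have : b ^ (2 * N) ≠ 0 := (pow_pos hb _).ne'
        field_simp

theorem sum_FF_le (C : ℝ) : ∃ K n₀ : ℕ, ∀ n ≥ n₀, ∀ A : Finset ℕ, Good C n A →
    (∀ s : Finset ℕ, (∀ l ∈ s, l ∉ A) → ∑ l ∈ s, FF (Real.sqrt n) A l ^ 2 ≤ (n : ℝ) ^ K) ∧
      ∑ a ∈ A, (1 / FF (Real.sqrt n) A a) ^ 2 ≤ (n : ℝ) ^ K := by
  obtain ⟨K₁, n₁, h1⟩ := FF_le C
  obtain ⟨K₂, n₂, h2⟩ := le_FF C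
  refine ⟨max (2 * K₁ + 2) (2 * K₂ + 1), max (max n₁ n₂) 11, fun n hn A hA => ?_⟩
  have hn1 : n₁ ≤ n := le_trans (le_trans (le_max_left _ _) (le_max_left _ _)) hn
  have hn2 : n₂ ≤ n := le_trans (le_trans (le_max_right _ _) (le_max_left _ _)) hn
  have hn11 : 11 ≤ n := le_trans (le_max_right _ _) hn
  have hnr : (11 : ℝ) ≤ n := by exact_mod_cast hn11
  have hb : 0 < Real.sqrt n := Real.sqrt_pos.2 (by linarith)
  have hbn : Real.sqrt n ≤ n := by
    rw [Real.sqrt_le_left (by linarith)]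
    nlinarith
  constructor
  · intro s hs
    rw [← Finset.sum_filter_add_sum_filter_not s (fun l : ℕ => (l : ℝ) < 8 * Real.sqrt n)]
    have hcard : ((s.filter (fun l : ℕ => (l : ℝ) < 8 * Real.sqrt n)).card : ℝ) ≤ 8 * n + 1 := by
      have hsub : s.filter (fun l : ℕ => (l : ℝ) < 8 * Real.sqrt n) ⊆ Finset.range (8 * n + 1) := by
        intro l hl
        rw [Finset.mem_filter] at hl
        rw [Finset.mem_range]
        have h3 : (l : ℝ) < 8 * n := by linarith [hl.2]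
        have h4 : l < 8 * n := by exact_mod_cast h3
        omega
      have h5 := Finset.card_le_card hsub
      rw [Finset.card_range] at h5
      exact_mod_cast h5
    have hA1 : ∑ l ∈ s.filter (fun l : ℕ => (l : ℝ) < 8 * Real.sqrt n), FF (Real.sqrt n) A l ^ 2 ≤
        (8 * n + 1) * (n : ℝ) ^ (2 * K₁) := by
      have h3 : ∀ l ∈ s.filter (fun l : ℕ => (l : ℝ) < 8 * Real.sqrt n),
          FF (Real.sqrt n) A l ^ 2 ≤ (n : ℝ) ^ (2 * K₁) := by
        intro l hl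
        rw [Finset.mem_filter] at hl
        have h4 := h1 n hn1 A hA l (hs l hl.1)
        have h5 := pow_le_pow_left₀ (FF_pos hb A l).le h4 2
        rwa [← pow_mul, mul_comm K₁ 2] at h5
      refine (Finset.sum_le_card_nsmul _ _ _ h3).trans ?_
      rw [nsmul_eq_mul]
      exact mul_le_mul_of_nonneg_right hcard (by positivity)
    have hA2 : ∑ l ∈ s.filter (fun l : ℕ => ¬ (l : ℝ) < 8 * Real.sqrt n), FF (Real.sqrt n) A l ^ 2 ≤ 2 := by
      have h3 : ∀ l ∈ s.filter (fun l : ℕ => ¬ (l : ℝ) < 8 * Real.sqrt n),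
          FF (Real.sqrt n) A l ^ 2 ≤ (1 / 2 : ℝ) ^ l := by
        intro l hl
        rw [Finset.mem_filter] at hl
        have h4 := FF_far hb (hs l hl.1) (not_lt.1 hl.2)
        have h5 := (FF_pos hb A l).le
        have h6 : (1 / 2 : ℝ) ^ l ≤ 1 := pow_le_one₀ (by norm_num) (by norm_num)
        nlinarith
      refine (Finset.sum_le_sum h3).trans ?_
      have h4 := Summable.sum_le_tsum (s.filter (fun l : ℕ => ¬ (l : ℝ) < 8 * Real.sqrt n))
        (fun l _ => by positivity) (summable_geometric_of_lt_one (r := (1 / 2 : ℝ)) (by norm_num) (by norm_num))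
      rw [tsum_geometric_of_lt_one (by norm_num) (by norm_num)] at h4
      norm_num at h4 ⊢
      exact h4
    refine (add_le_add hA1 hA2).trans ?_
    have hp : (1 : ℝ) ≤ (n : ℝ) ^ (2 * K₁) := one_le_pow₀ (by linarith)
    calc (8 * n + 1) * (n : ℝ) ^ (2 * K₁) + 2 ≤ (8 * n + 1) * (n : ℝ) ^ (2 * K₁) + 2 * (n : ℝ) ^ (2 * K₁) := by
          linarith
      _ = (8 * n + 3) * (n : ℝ) ^ (2 * K₁) := by ring
      _ ≤ (n : ℝ) ^ 2 * (n : ℝ) ^ (2 * K₁) := by
          apply mul_le_mul_of_nonneg_right _ (by positivity)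
          nlinarith
      _ = (n : ℝ) ^ (2 * K₁ + 2) := by ring
      _ ≤ (n : ℝ) ^ (max (2 * K₁ + 2) (2 * K₂ + 1)) :=
          pow_le_pow_right₀ (by linarith) (le_max_left _ _)
  · have h3 : ∀ a ∈ A, (1 / FF (Real.sqrt n) A a) ^ 2 ≤ (n : ℝ) ^ (2 * K₂) := by
      intro a ha
      have h4 := h2 n hn2 A hA a ha
      have h5 := FF_pos hb A a
      have h6 : 1 / FF (Real.sqrt n) A a ≤ (n : ℝ) ^ K₂ := by
        rw [div_le_iff₀ h5, mul_comm]
        exact h4
      have h7 := pow_le_pow_left₀ (by positivity) h6 2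
      rwa [← pow_mul, mul_comm K₂ 2] at h7
    refine (Finset.sum_le_card_nsmul _ _ _ h3).trans ?_
    rw [nsmul_eq_mul]
    have h4 : (A.card : ℝ) ≤ n := by
      have := hA.size
      exact_mod_cast (by omega : A.card ≤ n)
    calc (A.card : ℝ) * (n : ℝ) ^ (2 * K₂) ≤ n * (n : ℝ) ^ (2 * K₂) :=
          mul_le_mul_of_nonneg_right h4 (by positivity)
      _ = (n : ℝ) ^ (2 * K₂ + 1) := by ring
      _ ≤ (n : ℝ) ^ (max (2 * K₁ + 2) (2 * K₂ + 1)) :=
          pow_le_pow_right₀ (by linarith) (le_max_right _ _)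

theorem RR_le (C : ℝ) : ∃ K n₀ : ℕ, ∀ n ≥ n₀, ∀ N > n, ∀ A : Finset ℕ, Good C n A →
    RR (Real.sqrt n) (XB N A) ≤ (n : ℝ) ^ K := by
  obtain ⟨K, n₀, h⟩ := sum_FF_le C
  refine ⟨2 * K + 3, max n₀ 2, fun n hn N hN A hA => ?_⟩
  have hn0 : n₀ ≤ n := le_trans (le_max_left _ _) hn
  have hn2 : 2 ≤ n := le_trans (le_max_right _ _) hn
  have hnr : (2 : ℝ) ≤ n := by exact_mod_cast hn2
  have hb : 0 < Real.sqrt n := Real.sqrt_pos.2 (by linarith)
  have hAN : ∀ a ∈ A, a < N := by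
    intro a ha
    have h1 := hA.size
    have h2 : a ≤ ∑ a ∈ A, a := Finset.single_le_sum (f := fun a => a) (fun _ _ => Nat.zero_le _) ha
    omega
  obtain ⟨h1, h2⟩ := h n hn0 A hA
  refine (RR_le_prod hb hAN h1 h2).trans ?_
  rw [Real.sq_sqrt (by linarith)]
  have hp : 0 < (n : ℝ) ^ K := by positivity
  have h3 : (n : ℝ) ^ K + n * (n : ℝ) ^ K ≤ 2 * (n * (n : ℝ) ^ K) := by nlinarith
  have h4 : (n : ℝ) ^ K + (n : ℝ) ^ K / n ≤ 2 * (n : ℝ) ^ K := by
    have : (n : ℝ) ^ K / n ≤ (n : ℝ) ^ K := div_le_self hp.le (by linarith)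
    linarith
  calc ((n : ℝ) ^ K + n * (n : ℝ) ^ K) * ((n : ℝ) ^ K + (n : ℝ) ^ K / n)
      ≤ (2 * (n * (n : ℝ) ^ K)) * (2 * (n : ℝ) ^ K) := by
        apply mul_le_mul h3 h4 (by positivity) (by positivity)
    _ = 4 * (n : ℝ) ^ (2 * K + 1) := by ring
    _ ≤ (n : ℝ) ^ 2 * (n : ℝ) ^ (2 * K + 1) := by
        apply mul_le_mul_of_nonneg_right _ (by positivity)
        nlinarith
    _ = (n : ℝ) ^ (2 * K + 3) := by ring

end Pool.Agent.Helper67.DP
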